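import Mathlib

/-!
# Parts without antipodal pairs: rules (helper11)
-/

set_option autoImplicit false

open Set
open scoped Pointwise

namespace Pool.Agent.H11.SWS

variable {E : Type*} [NormedAddCommGroup E] [InnerProductSpace ℝ E]

/-- `x` maximises `⟪u, ·⟫` on `F`. -/
def Mx (F : Set E) (u x : E) : Prop := ∀ z ∈ F, (inner ℝ u z : ℝ) ≤ inner ℝ u x

/-- `x` maximises and `y` minimises `⟪u, ·⟫` on `F`. -/
def Ant (F : Set E) (u x y : E) : Prop := Mx F u x ∧ Mx F (-u) y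

/-- `F` is the union of `k` compact sets without antipodal pairs in the directions of `U`. -/
def Good (F : Set E) (U : Submodule ℝ E) (k : ℕ) : Prop :=
  ∃ (ι : Type) (_ : Fintype ι) (G : ι → Set E), Fintype.card ι = k ∧ (∀ i, IsCompact (G i)) ∧
    F = ⋃ i, G i ∧ ∀ i, ∀ x ∈ G i, ∀ y ∈ G i, ∀ u ∈ U, u ≠ 0 → ¬ Ant F u x y

theorem Mx.smul {F : Set E} {u x : E} (h : Mx F u x) {c : ℝ} (hc : 0 ≤ c) : Mx F (c • u) x := by
  intro z hz
  rw [inner_smul_left, inner_smul_left]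
  exact mul_le_mul_of_nonneg_left (h z hz) (by simpa using hc)

theorem Good.congr_right {F : Set E} {U : Submodule ℝ E} {k l : ℕ} (h : Good F U k)
    (hk : k = l) : Good F U l := hk ▸ h

theorem Good.mono_sub {F : Set E} {U V : Submodule ℝ E} {k : ℕ} (h : Good F U k)
    (hV : V ≤ U) : Good F V k := by
  obtain ⟨ι, _, G, h1, h2, h3, h4⟩ := h
  exact ⟨ι, _, G, h1, h2, h3, fun i x hx y hy u hu => h4 i x hx y hy u (hV hu)⟩

/-- no directions -/
theorem good_bot {F : Set E} (hF : IsCompact F) {U : Submodule ℝ E} (hU : ∀ u ∈ U, u = 0) :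
    Good F U 1 :=
  ⟨Unit, inferInstance, fun _ => F, by simp, fun _ => hF, (iUnion_const F).symm,
    fun _ _ _ _ _ u hu h0 => (h0 (hU u hu)).elim⟩

/-- one direction -/
theorem good_line {F : Set E} (hF : IsCompact F) {U : Submodule ℝ E} {b : E}
    (hU : ∀ u ∈ U, ∃ c : ℝ, u = c • b) (hw : ∃ x ∈ F, ∃ y ∈ F, (inner ℝ b x : ℝ) ≠ inner ℝ b y) :
    Good F U 2 := by
  obtain ⟨x₀, hx₀, y₀, hy₀, hne⟩ := hw
  have hFne : F.Nonempty := ⟨x₀, hx₀⟩
  have hfc : Continuous (fun x : E => (inner ℝ b x : ℝ)) := by fun_prop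
  obtain ⟨p, hp, hpM⟩ := hF.exists_isMaxOn hFne hfc.continuousOn
  obtain ⟨q, hq, hqm⟩ := hF.exists_isMinOn hFne hfc.continuousOn
  rw [isMaxOn_iff] at hpM
  rw [isMinOn_iff] at hqm
  set M : ℝ := inner ℝ b p with hM
  set m : ℝ := inner ℝ b q with hm
  have hlt : m < M := by
    rcases lt_or_gt_of_ne hne with h | h
    · linarith [hpM y₀ hy₀, hqm x₀ hx₀]
    · linarith [hpM x₀ hx₀, hqm y₀ hy₀]
  refine ⟨Bool, inferInstance, fun i => if i then F ∩ {x | (inner ℝ b x : ℝ) ≤ (m + M) / 2} else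
    F ∩ {x | (m + M) / 2 ≤ (inner ℝ b x : ℝ)}, by simp, ?_, ?_, ?_⟩
  · intro i
    cases i
    · simp only [Bool.false_eq_true, if_false]
      exact hF.inter_right (isClosed_le continuous_const hfc)
    · simp only [if_true]
      exact hF.inter_right (isClosed_le hfc continuous_const)
  · ext x
    simp only [mem_iUnion, Bool.exists_bool, Bool.false_eq_true, if_false, if_true, mem_inter_iff,
      Set.mem_ofPred_eq]
    constructor
    · intro hx
      rcases le_total (inner ℝ b x : ℝ) ((m + M) / 2) with h | h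
      · exact Or.inr ⟨hx, h⟩
      · exact Or.inl ⟨hx, h⟩
    · rintro (h | h) <;> exact h.1
  · intro i x hx y hy u hu hu0 hant
    obtain ⟨c, rfl⟩ := hU u hu
    have hc : c ≠ 0 := by
      rintro rfl
      simp at hu0
    obtain ⟨h1, h2⟩ := hant
    have e1 : ∀ z : E, (inner ℝ (c • b) z : ℝ) = c * inner ℝ b z := fun z => by
      rw [real_inner_smul_left]
    have e2 : ∀ z : E, (inner ℝ (-(c • b)) z : ℝ) = -(c * inner ℝ b z) := fun z => by
      rw [inner_neg_left, real_inner_smul_left]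
    have key : ∀ x y : E, x ∈ F → y ∈ F → (∀ z ∈ F, c * inner ℝ b z ≤ c * (inner ℝ b x : ℝ)) →
        (∀ z ∈ F, c * (inner ℝ b y : ℝ) ≤ c * inner ℝ b z) →
        (inner ℝ b x : ℝ) = M ∧ (inner ℝ b y : ℝ) = m ∨
        (inner ℝ b x : ℝ) = m ∧ (inner ℝ b y : ℝ) = M := by
      intro x y hx hy h3 h4
      rcases lt_or_gt_of_ne hc with h | h
      · right
        constructor
        · apply le_antisymm _ (hqm x hx)
          have := h3 q hq
          nlinarith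
        · apply le_antisymm (hpM y hy)
          have := h4 p hp
          nlinarith
      · left
        constructor
        · apply le_antisymm (hpM x hx)
          have := h3 p hp
          nlinarith
        · apply le_antisymm _ (hqm y hy)
          have := h4 q hq
          nlinarith
    have h3 : ∀ z ∈ F, c * inner ℝ b z ≤ c * (inner ℝ b x : ℝ) := fun z hz => by
      have := h1 z hz
      rwa [e1, e1] at this
    have h4 : ∀ z ∈ F, c * (inner ℝ b y : ℝ) ≤ c * inner ℝ b z := fun z hz => by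
      have := h2 z hz
      rw [e2, e2] at this
      linarith
    cases i
    · simp only [Bool.false_eq_true, if_false, mem_inter_iff, Set.mem_ofPred_eq] at hx hy
      rcases key x y hx.1 hy.1 h3 h4 with h5 | h5
      · rw [h5.2] at hy
        linarith [hy.2]
      · rw [h5.1] at hx
        linarith [hx.2]
    · simp only [if_true, mem_inter_iff, Set.mem_ofPred_eq] at hx hy
      rcases key x y hx.1 hy.1 h3 h4 with h5 | h5
      · rw [h5.1] at hx
        linarith [hx.2]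
      · rw [h5.2] at hy
        linarith [hy.2]

/-- the summand rule for directions seen by the summand -/
theorem Good.add {K L F : Set E} (hK : IsCompact K) (hF : K + L = F)
    {W U U' : Submodule ℝ E} [W.HasOrthogonalProjection] {p q : ℕ}
    (hLW : ∀ a ∈ L, ∀ b ∈ L, a - b ∈ W)
    (hL : Good L W p) (hU' : ∀ u ∈ U, (∀ w ∈ W, (inner ℝ u w : ℝ) = 0) → u ∈ U')
    (h : Good F U' q) : Good F U (p * q) := by
  obtain ⟨ι, _, G, g1, g2, g3, g4⟩ := hL
  obtain ⟨κ, _, H, h1, h2, h3, h4⟩ := h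
  refine ⟨ι × κ, inferInstance, fun a => (K + G a.1) ∩ H a.2, ?_, ?_, ?_, ?_⟩
  · rw [Fintype.card_prod, g1, h1]
  · intro a
    exact (hK.add (g2 a.1)).inter_right (h2 a.2).isClosed
  · ext x
    constructor
    · intro hx
      have hx' := hx
      rw [← hF] at hx'
      obtain ⟨k, hk, l, hl, rfl⟩ := hx'
      rw [g3] at hl
      obtain ⟨i, hi⟩ := mem_iUnion.mp hl
      rw [h3] at hx
      obtain ⟨j, hj⟩ := mem_iUnion.mp hx
      exact mem_iUnion.mpr ⟨(i, j), ⟨k, hk, l, hi, rfl⟩, hj⟩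
    · intro hx
      obtain ⟨a, -, ha⟩ := mem_iUnion.mp hx
      rw [h3]
      exact mem_iUnion.mpr ⟨a.2, ha⟩
  · rintro ⟨i, j⟩ x ⟨hx, hxH⟩ y ⟨hy, hyH⟩ u hu hu0 hant
    obtain ⟨k₁, hk₁, l₁, hl₁, rfl⟩ := hx
    obtain ⟨k₂, hk₂, l₂, hl₂, rfl⟩ := hy
    simp only at hxH hyH hl₁ hl₂
    by_cases hW : ∀ w ∈ W, (inner ℝ u w : ℝ) = 0
    · exact h4 j _ hxH _ hyH u (hU' u hu hW) hu0 hant
    · set v : E := W.starProjection u with hv
      have hvW : v ∈ W := W.starProjection_apply_mem u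
      have hvw : ∀ w ∈ W, (inner ℝ v w : ℝ) = inner ℝ u w := by
        intro w hw
        have h5 : (inner ℝ w (u - v) : ℝ) = 0 := by
          rw [hv]
          exact (Submodule.mem_orthogonal W _).mp (Submodule.sub_starProjection_mem_orthogonal u) w hw
        rw [inner_sub_right] at h5
        rw [real_inner_comm w v, real_inner_comm w u]
        linarith
      have hv0 : v ≠ 0 := by
        intro h0
        apply hW
        intro w hw
        rw [← hvw w hw, h0, inner_zero_left]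
      have hlL : ∀ l ∈ G i, l ∈ L := fun l hl => by
        rw [g3]
        exact mem_iUnion.mpr ⟨i, hl⟩
      refine g4 i l₁ hl₁ l₂ hl₂ v hvW hv0 ⟨?_, ?_⟩
      · intro z hz
        have h5 := hant.1 (k₁ + z) (by rw [← hF]; exact ⟨k₁, hk₁, z, hz, rfl⟩)
        rw [inner_add_right, inner_add_right] at h5
        have h6 := hvw (z - l₁) (hLW z hz l₁ (hlL l₁ hl₁))
        rw [inner_sub_right, inner_sub_right] at h6
        linarith
      · intro z hz
        have h5 := hant.2 (k₂ + z) (by rw [← hF]; exact ⟨k₂, hk₂, z, hz, rfl⟩)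
        rw [inner_add_right, inner_add_right] at h5
        have h6 := hvw (z - l₂) (hLW z hz l₂ (hlL l₂ hl₂))
        rw [inner_sub_right, inner_sub_right] at h6
        simp only [inner_neg_left] at h5 ⊢
        linarith

/-- a partition of a summand gives one of the sum -/
theorem Good.of_summand {K L F : Set E} (hL : IsCompact L) (hF : K + L = F)
    {U : Submodule ℝ E} {q : ℕ} (h : Good K U q) : Good F U q := by
  obtain ⟨κ, _, H, h1, h2, h3, h4⟩ := h
  refine ⟨κ, _, fun j => H j + L, h1, fun j => (h2 j).add hL, ?_, ?_⟩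
  · ext x
    constructor
    · intro hx
      rw [← hF] at hx
      obtain ⟨k, hk, l, hl, rfl⟩ := hx
      rw [h3] at hk
      obtain ⟨j, hj⟩ := mem_iUnion.mp hk
      exact mem_iUnion.mpr ⟨j, k, hj, l, hl, rfl⟩
    · intro hx
      obtain ⟨j, k, hk, l, hl, rfl⟩ := mem_iUnion.mp hx
      rw [← hF]
      refine ⟨k, ?_, l, hl, rfl⟩
      rw [h3]
      exact mem_iUnion.mpr ⟨j, hk⟩
  · intro j x hx y hy u hu hu0 hant
    obtain ⟨k₁, hk₁, l₁, hl₁, rfl⟩ := hx
    obtain ⟨k₂, hk₂, l₂, hl₂, rfl⟩ := hy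
    refine h4 j k₁ hk₁ k₂ hk₂ u hu hu0 ⟨?_, ?_⟩
    · intro z hz
      have h5 := hant.1 (z + l₁) (by rw [← hF]; exact ⟨z, hz, l₁, hl₁, rfl⟩)
      simp only [inner_add_right] at h5
      linarith
    · intro z hz
      have h5 := hant.2 (z + l₂) (by rw [← hF]; exact ⟨z, hz, l₂, hl₂, rfl⟩)
      simp only [inner_add_right] at h5
      linarith

variable [FiniteDimensional ℝ E]

/-- the points of `F` with a unit normal `u` in `U` such that `⟪u, e⟫ ≥ δ` form a compact set -/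
theorem isCompact_normals {F : Set E} (hF : IsCompact F) (U : Submodule ℝ E) (e : E) (δ : ℝ) :
    IsCompact {x | x ∈ F ∧ ∃ u ∈ U, ‖u‖ = 1 ∧ δ ≤ (inner ℝ u e : ℝ) ∧ Mx F u x} := by
  have hS : IsCompact {p : E × E | (p.1 ∈ Metric.sphere (0:E) 1 ∧ p.2 ∈ F) ∧ p.1 ∈ U ∧
      δ ≤ (inner ℝ p.1 e : ℝ) ∧ ∀ z ∈ F, (inner ℝ p.1 z : ℝ) ≤ inner ℝ p.1 p.2} := by
    have h1 : IsCompact ((Metric.sphere (0:E) 1) ×ˢ F) := (isCompact_sphere _ _).prod hF
    have h2 : IsClosed {p : E × E | p.1 ∈ U} := by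
      have := (Submodule.closed_of_finiteDimensional U)
      exact this.preimage continuous_fst
    have h3 : IsClosed {p : E × E | δ ≤ (inner ℝ p.1 e : ℝ)} :=
      isClosed_le continuous_const (by fun_prop)
    have h4 : IsClosed {p : E × E | ∀ z ∈ F, (inner ℝ p.1 z : ℝ) ≤ inner ℝ p.1 p.2} := by
      have : {p : E × E | ∀ z ∈ F, (inner ℝ p.1 z : ℝ) ≤ inner ℝ p.1 p.2} =
          ⋂ z ∈ F, {p : E × E | (inner ℝ p.1 z : ℝ) ≤ inner ℝ p.1 p.2} := by
        ext p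
        simp
      rw [this]
      exact isClosed_biInter fun z _ => isClosed_le (by fun_prop) (by fun_prop)
    exact h1.inter_right (h2.inter (h3.inter h4))
  have : {x | x ∈ F ∧ ∃ u ∈ U, ‖u‖ = 1 ∧ δ ≤ (inner ℝ u e : ℝ) ∧ Mx F u x} = Prod.snd ''
      {p : E × E | (p.1 ∈ Metric.sphere (0:E) 1 ∧ p.2 ∈ F) ∧ p.1 ∈ U ∧
      δ ≤ (inner ℝ p.1 e : ℝ) ∧ ∀ z ∈ F, (inner ℝ p.1 z : ℝ) ≤ inner ℝ p.1 p.2} := by
    ext x
    constructor
    · rintro ⟨hx, u, hu, hu1, hd, hm⟩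
      exact ⟨(u, x), ⟨⟨by simpa using hu1, hx⟩, hu, hd, hm⟩, rfl⟩
    · rintro ⟨⟨u, x⟩, ⟨⟨h1, h2⟩, h3, h4, h5⟩, rfl⟩
      exact ⟨h2, u, h3, by simpa using h1, h4, h5⟩
  rw [this]
  exact hS.image continuous_snd

/-- compactness: antipodal pairs inside a part have directions away from `e^⊥` -/
theorem exists_margin {F : Set E} {U U' : Submodule ℝ E} {e : E}
    (hU' : ∀ u ∈ U, (inner ℝ u e : ℝ) = 0 → u ∈ U') {G : Set E} (hG : IsCompact G)
    (h4 : ∀ x ∈ G, ∀ y ∈ G, ∀ u ∈ U', u ≠ 0 → ¬ Ant F u x y) :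
    ∃ δ : ℝ, 0 < δ ∧ ∀ x ∈ G, ∀ y ∈ G, ∀ u ∈ U, ‖u‖ = 1 → Ant F u x y →
      δ ≤ |(inner ℝ u e : ℝ)| := by
  have hS : IsCompact {p : E × E × E | (p.1 ∈ Metric.sphere (0:E) 1 ∧ p.2.1 ∈ G ∧ p.2.2 ∈ G) ∧
      p.1 ∈ U ∧ (∀ z ∈ F, (inner ℝ p.1 z : ℝ) ≤ inner ℝ p.1 p.2.1) ∧
      ∀ z ∈ F, (inner ℝ (-p.1) z : ℝ) ≤ inner ℝ (-p.1) p.2.2} := by
    have h1 : IsCompact ((Metric.sphere (0:E) 1) ×ˢ (G ×ˢ G)) :=
      (isCompact_sphere _ _).prod (hG.prod hG)
    have h2 : IsClosed {p : E × E × E | p.1 ∈ U} :=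
      (Submodule.closed_of_finiteDimensional U).preimage continuous_fst
    have h3 : IsClosed {p : E × E × E | ∀ z ∈ F, (inner ℝ p.1 z : ℝ) ≤ inner ℝ p.1 p.2.1} := by
      have : {p : E × E × E | ∀ z ∈ F, (inner ℝ p.1 z : ℝ) ≤ inner ℝ p.1 p.2.1} =
          ⋂ z ∈ F, {p : E × E × E | (inner ℝ p.1 z : ℝ) ≤ inner ℝ p.1 p.2.1} := by
        ext p
        simp
      rw [this]
      exact isClosed_biInter fun z _ => isClosed_le (by fun_prop) (by fun_prop)
    have h5 : IsClosed {p : E × E × E | ∀ z ∈ F, (inner ℝ (-p.1) z : ℝ) ≤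
        inner ℝ (-p.1) p.2.2} := by
      have : {p : E × E × E | ∀ z ∈ F, (inner ℝ (-p.1) z : ℝ) ≤ inner ℝ (-p.1) p.2.2} =
          ⋂ z ∈ F, {p : E × E × E | (inner ℝ (-p.1) z : ℝ) ≤ inner ℝ (-p.1) p.2.2} := by
        ext p
        simp
      rw [this]
      exact isClosed_biInter fun z _ => isClosed_le (by fun_prop) (by fun_prop)
    exact h1.inter_right (h2.inter (h3.inter h5))
  rcases Set.eq_empty_or_nonempty {p : E × E × E | (p.1 ∈ Metric.sphere (0:E) 1 ∧ p.2.1 ∈ G ∧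
      p.2.2 ∈ G) ∧ p.1 ∈ U ∧ (∀ z ∈ F, (inner ℝ p.1 z : ℝ) ≤ inner ℝ p.1 p.2.1) ∧
      ∀ z ∈ F, (inner ℝ (-p.1) z : ℝ) ≤ inner ℝ (-p.1) p.2.2} with h0 | h0
  · refine ⟨1, one_pos, fun x hx y hy u hu hu1 hant => ?_⟩
    exfalso
    have : ((u, x, y) : E × E × E) ∈ {p : E × E × E | (p.1 ∈ Metric.sphere (0:E) 1 ∧ p.2.1 ∈ G ∧
      p.2.2 ∈ G) ∧ p.1 ∈ U ∧ (∀ z ∈ F, (inner ℝ p.1 z : ℝ) ≤ inner ℝ p.1 p.2.1) ∧
      ∀ z ∈ F, (inner ℝ (-p.1) z : ℝ) ≤ inner ℝ (-p.1) p.2.2} :=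
      ⟨⟨by simpa using hu1, hx, hy⟩, hu, hant.1, hant.2⟩
    rw [h0] at this
    exact this
  · have hc : Continuous (fun p : E × E × E => |(inner ℝ p.1 e : ℝ)|) := by fun_prop
    obtain ⟨⟨u₀, x₀, y₀⟩, ⟨⟨a1, a2, a3⟩, a4, a5, a6⟩, hmin⟩ := hS.exists_isMinOn h0 hc.continuousOn
    rw [isMinOn_iff] at hmin
    refine ⟨|(inner ℝ u₀ e : ℝ)|, ?_, ?_⟩
    · rw [abs_pos]
      intro h6
      have hu0 : u₀ ≠ 0 := by
        rintro rfl
        simp at a1
      exact h4 x₀ a2 y₀ a3 u₀ (hU' u₀ a4 h6) hu0 ⟨a5, a6⟩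
    · intro x hx y hy u hu hu1 hant
      exact hmin (u, x, y) ⟨⟨by simpa using hu1, hx, hy⟩, hu, hant.1, hant.2⟩

/-- the rule for a regular direction -/
theorem Good.step {F : Set E} (hF : IsCompact F) {U U' : Submodule ℝ E} {e : E} {k : ℕ}
    (hU' : ∀ u ∈ U, (inner ℝ u e : ℝ) = 0 → u ∈ U')
    (hreg : ∀ x ∈ F, ∀ u ∈ U, ∀ v ∈ U, Mx F u x → Mx F v x →
      ¬ (0 < (inner ℝ u e : ℝ) ∧ (inner ℝ v e : ℝ) < 0))
    (h : Good F U' k) : Good F U (k * 2) := by
  obtain ⟨ι, _, G, h1, h2, h3, h4⟩ := h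
  have hGF : ∀ i, G i ⊆ F := fun i x hx => by
    rw [h3]
    exact mem_iUnion.mpr ⟨i, hx⟩
  choose δ hδ0 hδ using fun i => exists_margin hU' (h2 i) (h4 i)
  obtain ⟨d, hd0, hd⟩ : ∃ d : ℝ, 0 < d ∧ ∀ i, d ≤ δ i := by
    rcases isEmpty_or_nonempty ι with hι | hι
    · exact ⟨1, one_pos, fun i => hι.elim i⟩
    · obtain ⟨i₀, hi₀⟩ := Finite.exists_min δ
      exact ⟨δ i₀, hδ0 i₀, hi₀⟩
  have hP := isCompact_normals hF U e d
  have hM := isCompact_normals hF U (-e) d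
  set P := {x | x ∈ F ∧ ∃ u ∈ U, ‖u‖ = 1 ∧ d ≤ (inner ℝ u e : ℝ) ∧ Mx F u x} with hPdef
  set M := {x | x ∈ F ∧ ∃ u ∈ U, ‖u‖ = 1 ∧ d ≤ (inner ℝ u (-e) : ℝ) ∧ Mx F u x} with hMdef
  have hdis : Disjoint P M := by
    rw [Set.disjoint_left]
    rintro x ⟨hx, u, hu, -, hu2, hu3⟩ ⟨-, v, hv, -, hv2, hv3⟩
    rw [inner_neg_right] at hv2
    exact hreg x hx u hu v hv hu3 hv3 ⟨by linarith, by linarith⟩
  obtain ⟨OP, OM, hOP, hOM, hPO, hMO, hO⟩ := normal_separation hP.isClosed hM.isClosed hdis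
  refine ⟨ι × Bool, inferInstance, fun a => G a.1 ∩ (if a.2 then OMᶜ else OPᶜ), ?_, ?_, ?_, ?_⟩
  · rw [Fintype.card_prod, h1]
    simp
  · rintro ⟨i, b⟩
    cases b
    · exact (h2 i).inter_right hOP.isClosed_compl
    · exact (h2 i).inter_right hOM.isClosed_compl
  · ext x
    constructor
    · intro hx
      rw [h3] at hx
      obtain ⟨i, hi⟩ := mem_iUnion.mp hx
      by_cases hxO : x ∈ OM
      · refine mem_iUnion.mpr ⟨(i, false), hi, ?_⟩
        simp only [Bool.false_eq_true, if_false]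
        exact fun h => Set.disjoint_left.mp hO h hxO
      · exact mem_iUnion.mpr ⟨(i, true), hi, by simpa using hxO⟩
    · intro hx
      obtain ⟨a, ha, -⟩ := mem_iUnion.mp hx
      exact hGF _ ha
  · rintro ⟨i, b⟩ x ⟨hx, hxO⟩ y ⟨hy, hyO⟩ u hu hu0 hant
    have hn : 0 < ‖u‖ := norm_pos_iff.mpr hu0
    set v : E := ‖u‖⁻¹ • u with hv
    have hvU : v ∈ U := U.smul_mem _ hu
    have hv1 : ‖v‖ = 1 := by
      rw [hv, norm_smul, norm_inv, norm_norm]
      exact inv_mul_cancel₀ hn.ne'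
    have hvant : Ant F v x y := by
      refine ⟨hant.1.smul (by positivity), ?_⟩
      have := hant.2.smul (c := ‖u‖⁻¹) (by positivity)
      rwa [smul_neg] at this
    have hm := (hd i).trans (hδ i x hx y hy v hvU hv1 hvant)
    have hxF := hGF i hx
    have hyF := hGF i hy
    have hnv1 : ‖-v‖ = 1 := by rw [norm_neg, hv1]
    rcases le_abs.mp hm with h5 | h5
    · have hxP : x ∈ P := ⟨hxF, v, hvU, hv1, h5, hvant.1⟩
      have hyM : y ∈ M := ⟨hyF, -v, U.neg_mem hvU, hnv1, by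
        rw [inner_neg_neg]
        exact h5, hvant.2⟩
      cases b
      · simp only [Bool.false_eq_true, if_false] at hxO
        exact hxO (hPO hxP)
      · simp only [if_true] at hyO
        exact hyO (hMO hyM)
    · have hxM : x ∈ M := ⟨hxF, v, hvU, hv1, by
        rw [inner_neg_right]
        exact h5, hvant.1⟩
      have hyP : y ∈ P := ⟨hyF, -v, U.neg_mem hvU, hnv1, by
        rw [inner_neg_left]
        exact h5, hvant.2⟩
      cases b
      · simp only [Bool.false_eq_true, if_false] at hyO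
        exact hyO (hPO hyP)
      · simp only [if_true] at hxO
        exact hxO (hMO hxM)

end Pool.Agent.H11.SWS
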