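import Pool.Agent.H11.SWF.Defs

/-!
# Outer normals, summands and coverings: definitions only
-/

set_option autoImplicit false

namespace Pool.Agent.H11.SWD

/-- `K` is compact. -/
def Cpt {n : ℕ} (K : Set (EuclideanSpace ℝ (Fin n))) : Prop := IsCompact K

/-- The convex hull of `S`. -/
def conv {n : ℕ} (S : Set (EuclideanSpace ℝ (Fin n))) : Set (EuclideanSpace ℝ (Fin n)) :=
  convexHull ℝ S

/-- The sum of the numbers `c i`. -/
def tot {r : ℕ} (c : Fin r → ℕ) : ℕ := ∑ i, c i

/-- `u` is an outer normal of `F` at its point `x`: `⟨u, z⟩ ≤ ⟨u, x⟩` for all `z` in `F`. -/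
def Outer {n : ℕ} (F : Set (EuclideanSpace ℝ (Fin n))) (u x : EuclideanSpace ℝ (Fin n)) : Prop :=
  x ∈ F ∧ ∀ z ∈ F, ip u z ≤ ip u x

/-- The differences of the points of `L`. -/
def diffs {n : ℕ} (L : Set (EuclideanSpace ℝ (Fin n))) : Set (EuclideanSpace ℝ (Fin n)) :=
  {w | ∃ x ∈ L, ∃ y ∈ L, x - y = w}

/-- The dimension of the linear span of `A`. -/
noncomputable def rk {n : ℕ} (A : Set (EuclideanSpace ℝ (Fin n))) : ℕ := Set.finrank ℝ A

/-- The dimension of the affine hull of `L`. -/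
noncomputable def dm {n : ℕ} (L : Set (EuclideanSpace ℝ (Fin n))) : ℕ := rk (diffs L)

/-- `u` is in the linear span of `A`. -/
def InSpan {n : ℕ} (u : EuclideanSpace ℝ (Fin n)) (A : Set (EuclideanSpace ℝ (Fin n))) : Prop :=
  u ∈ Submodule.span ℝ A

/-- `u` is orthogonal to all `w` in `A`. -/
def Perp {n : ℕ} (u : EuclideanSpace ℝ (Fin n)) (A : Set (EuclideanSpace ℝ (Fin n))) : Prop :=
  ∀ w ∈ A, ip u w = 0

/-- `K` and `L` are compact and their Minkowski sum is `F`. -/
def Summands {n : ℕ} (K L F : Set (EuclideanSpace ℝ (Fin n))) : Prop :=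
  Cpt K ∧ Cpt L ∧ {z | ∃ x ∈ K, ∃ y ∈ L, x + y = z} = F

/-- `S` is the union of `k` sets of smaller width than `F` in the directions that satisfy `D`. -/
def Cov {n : ℕ} (S F : Set (EuclideanSpace ℝ (Fin n)))
    (D : EuclideanSpace ℝ (Fin n) → Prop) (k : ℕ) : Prop :=
  ∃ A : Fin k → Set (EuclideanSpace ℝ (Fin n)), (⋃ i, A i) = S ∧
    ∀ i u, nm u = 1 → D u → width (A i) u < width F u

/-- `T` is a compact subset of `F` and the union of `k` sets of smaller width than `F` in all
directions. -/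
def Small {n : ℕ} (T F : Set (EuclideanSpace ℝ (Fin n))) (k : ℕ) : Prop :=
  Cpt T ∧ T ⊆ F ∧ Cov T F (fun _ => True) k

/-- `F` is the union of `k` pairwise disjoint sets of smaller width in all directions. -/
def Split {n : ℕ} (F : Set (EuclideanSpace ℝ (Fin n))) (k : ℕ) : Prop :=
  ∃ G : Fin k → Set (EuclideanSpace ℝ (Fin n)), Parts G F

/-- `K` is smooth: it has at most one outer normal at each point among the unit vectors in the span
of its differences. -/
def Smooth {n : ℕ} (K : Set (EuclideanSpace ℝ (Fin n))) : Prop :=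
  ∀ x u v, Outer K u x → Outer K v x → InSpan u (diffs K) → InSpan v (diffs K) →
    nm u = 1 → nm v = 1 → u = v

/-- The vector `d` does not illuminate `x`: some unit outer normal `u` of `F` at `x` has
`⟨u, d⟩ ≥ 0`. -/
def Dark {n : ℕ} (F : Set (EuclideanSpace ℝ (Fin n))) (d x : EuclideanSpace ℝ (Fin n)) : Prop :=
  ∃ u, nm u = 1 ∧ Outer F u x ∧ 0 ≤ ip u d

/-- The differences of points of the sets `L i` and the vectors `e i` with `i < k`. -/
def joint {n r s : ℕ} (L : Fin r → Set (EuclideanSpace ℝ (Fin n)))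
    (e : Fin s → EuclideanSpace ℝ (Fin n)) (k : ℕ) : Set (EuclideanSpace ℝ (Fin n)) :=
  {w | (∃ i, w ∈ diffs (L i)) ∨ ∃ i, i.val < k ∧ e i = w}

/-- No point of `F` has outer normals `u`, `v` orthogonal to `A` with `⟨u, e⟩ > 0 > ⟨v, e⟩`. -/
def Regular {n : ℕ} (F A : Set (EuclideanSpace ℝ (Fin n))) (e : EuclideanSpace ℝ (Fin n)) :
    Prop :=
  ∀ x u v, Outer F u x → Outer F v x → Perp u A → Perp v A → 0 < ip u e → ip v e < 0 → False

/-- Auxiliary: the linear span of the differences of the points of `L`. -/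
def dirs {n : ℕ} (L : Set (EuclideanSpace ℝ (Fin n))) :
    Submodule ℝ (EuclideanSpace ℝ (Fin n)) :=
  Submodule.span ℝ (diffs L)

end Pool.Agent.H11.SWD
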