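import Pool.Agent.H11.SWS.Hull

/-!
# Illumination and the final statements (helper11)
-/

set_option autoImplicit false

open Set
open scoped Pointwise

namespace Pool.Agent.H11.SWS

open Pool.Agent.H11.SWD

/-- the rule for illuminated points -/
theorem goodOn_illum {E : Type*} [NormedAddCommGroup E] [InnerProductSpace ℝ E]
    [FiniteDimensional ℝ E] {F S T : Set E} (hF : IsCompact F) {U : Submodule ℝ E} {m k : ℕ}
    (d : Fin m → E) (hS : IsCompact S) (hSF : S ⊆ F)
    (hT : ∀ x ∈ S, (∀ i, ∃ u ∈ U, ‖u‖ = 1 ∧ 0 ≤ (inner ℝ u (d i) : ℝ) ∧ Mx F u x) → x ∈ T)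
    (h : GoodOn F T U k) : GoodOn F S U (m + k) := by
  obtain ⟨ι, _, G, R, h1, h2, hR, hRF, hRS, hcov, h4⟩ := h.prepare hF
  set B : Fin m → Set E := fun i =>
    {x | x ∈ F ∧ ∃ u ∈ U, ‖u‖ = 1 ∧ 0 ≤ (inner ℝ u (d i) : ℝ) ∧ Mx F u x} with hB
  have hBc : ∀ i, IsCompact (B i) := fun i => isCompact_normals hF U (d i) 0
  have hSR : IsCompact (S ∩ R) := hS.inter hR
  obtain ⟨v, hv1, hv2, hv3⟩ := exists_subset_iUnion_closed_subset (s := S ∩ R)
    (u := fun i => (B i)ᶜ) hSR.isClosed (fun i => (hBc i).isClosed.isOpen_compl)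
    (fun x _ => Set.toFinite _) (by
      rintro x ⟨hxS, hxR⟩
      by_contra hcon
      simp only [mem_iUnion, mem_compl_iff, not_exists, not_not] at hcon
      exact Set.disjoint_left.mp hRS hxR (hT x hxS fun i => (hcon i).2))
  refine ⟨Fin m ⊕ ι, inferInstance, fun a => Sum.elim (fun i => (S ∩ R) ∩ v i) G a, ?_, ?_, ?_, ?_⟩
  · rw [Fintype.card_sum, Fintype.card_fin, h1]
  · rintro (i | i)
    · exact ⟨hSR.inter_right (hv2 i), fun x hx => hSF hx.1.1⟩
    · refine ⟨h2 i, fun x hx => ?_⟩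
      rw [hcov]
      exact Or.inl (mem_iUnion.mpr ⟨i, hx⟩)
  · intro x hx
    have hxF := hSF hx
    rw [hcov] at hxF
    rcases hxF with hxG | hxR
    · obtain ⟨i, hi⟩ := mem_iUnion.mp hxG
      exact mem_iUnion.mpr ⟨Sum.inr i, hi⟩
    · obtain ⟨i, hi⟩ := mem_iUnion.mp (hv1 ⟨hx, hxR⟩)
      exact mem_iUnion.mpr ⟨Sum.inl i, ⟨hx, hxR⟩, hi⟩
  · rintro (i | i) x hx y hy u hu hu0 hant
    · obtain ⟨w, hw, hw1, hwant⟩ := hant.unit hu hu0
      rcases le_total 0 (inner ℝ w (d i) : ℝ) with h5 | h5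
      · exact hv3 i hx.2 ⟨hSF hx.1.1, w, hw, hw1, h5, hwant.1⟩
      · exact hv3 i hy.2 ⟨hSF hy.1.1, -w, U.neg_mem hw, by rw [norm_neg, hw1], by
          rw [inner_neg_left]
          linarith, hwant.2⟩
    · exact h4 i x hx y hy u hu hu0 hant

variable {n : ℕ}

/-- smaller widths give a covering without antipodal pairs -/
theorem goodOn_of_cov {F T : Set (EuclideanSpace ℝ (Fin n))} (hF : IsCompact F)
    (hT : IsCompact T) (hTF : T ⊆ F) {D : EuclideanSpace ℝ (Fin n) → Prop} {k : ℕ}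
    (h : Cov T F D k) {W : Submodule ℝ (EuclideanSpace ℝ (Fin n))} (hW : ∀ u ∈ W, D u) :
    GoodOn F T W k := by
  obtain ⟨A, hA, hs⟩ := h
  have hAT : ∀ i, A i ⊆ T := fun i x hx => by
    rw [← hA]
    exact mem_iUnion.mpr ⟨i, hx⟩
  have hcT : ∀ i, closure (A i) ⊆ T := fun i => closure_minimal (hAT i) hT.isClosed
  refine ⟨Fin k, inferInstance, fun i => closure (A i), by simp,
    fun i => ⟨hT.of_isClosed_subset isClosed_closure (hcT i), (hcT i).trans hTF⟩, ?_, ?_⟩
  · rw [← hA]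
    exact iUnion_mono fun i => subset_closure
  · intro i x hx y hy u hu hu0 hant
    obtain ⟨v, hvW, hv1, hvant⟩ := hant.unit hu hu0
    have h5 := hs i v hv1 (hW v hvW)
    rw [width_eq, width_eq] at h5
    set f : EuclideanSpace ℝ (Fin n) → ℝ := fun x => inner ℝ v x with hf
    have hfc : Continuous f := by
      rw [hf]
      fun_prop
    have hcF : IsCompact (f '' F) := hF.image hfc
    have hbA : BddAbove (f '' A i) := hcF.bddAbove.mono (image_mono ((hAT i).trans hTF))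
    have hbB : BddBelow (f '' A i) := hcF.bddBelow.mono (image_mono ((hAT i).trans hTF))
    have e1 : f x ≤ sSup (f '' A i) := by
      have : closure (A i) ⊆ {z | f z ≤ sSup (f '' A i)} :=
        closure_minimal (fun z hz => le_csSup hbA (mem_image_of_mem f hz))
          (isClosed_le hfc continuous_const)
      exact this hx
    have e2 : sInf (f '' A i) ≤ f y := by
      have : closure (A i) ⊆ {z | sInf (f '' A i) ≤ f z} :=
        closure_minimal (fun z hz => csInf_le hbB (mem_image_of_mem f hz))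
          (isClosed_le continuous_const hfc)
      exact this hy
    have hFne : (f '' F).Nonempty := ⟨f x, mem_image_of_mem f (hTF (hcT i hx))⟩
    have e3 : sSup (f '' F) ≤ f x := by
      apply csSup_le hFne
      rintro _ ⟨z, hz, rfl⟩
      exact hvant.1 z hz
    have e4 : f y ≤ sInf (f '' F) := by
      apply le_csInf hFne
      rintro _ ⟨z, hz, rfl⟩
      have := hvant.2 z hz
      rw [inner_neg_left, inner_neg_left, neg_le_neg_iff] at this
      exact this
    linarith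

/-- illumination of a set with convex hull `F` -/
theorem illuminated {F S T : Set (EuclideanSpace ℝ (Fin n))} (hF : IsCompact F)
    (hFi : (interior F).Nonempty) {m k : ℕ} (d : Fin m → EuclideanSpace ℝ (Fin n))
    (hS : IsCompact S) (hSF : convexHull ℝ S = F)
    (hT : ∀ x ∈ S, (∀ i, Dark F (d i) x) → x ∈ T) (h : GoodOn F T ⊤ k) : Split F (m + k) := by
  have hSF' : S ⊆ F := by
    rw [← hSF]
    exact subset_convexHull ℝ S
  refine Good.parts hF hFi (good_hull hF hSF (goodOn_illum hF d hS hSF' ?_ h))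
  intro x hx hall
  apply hT x hx
  intro i
  obtain ⟨u, -, hu1, hu2, hu3⟩ := hall i
  exact ⟨u, hu1, ⟨hSF' hx, hu3⟩, hu2⟩

/-- sharp points -/
theorem sharp {F T : Set (EuclideanSpace ℝ (Fin n))} (hF : IsCompact F)
    (hFi : (interior F).Nonempty) {m k : ℕ} (e : EuclideanSpace ℝ (Fin n))
    (hT : IsCompact T) (hTF : T ⊆ F)
    (hsh : ∀ x u v, Outer F u x → Outer F v x → 0 < ip u e → ip v e < 0 → x ∈ T)
    (hk : Cov T F (fun _ => True) k) (hm : Cov F F (fun u => ip u e = 0) m) :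
    Split F (2 * m + k) := by
  have g1 : GoodOn F T ⊤ k := goodOn_of_cov hF hT hTF hk fun _ _ => trivial
  have g2 : Good F (perp {e}) m := good_of_covered hF hm fun u hu => hu e rfl
  have g3 := good_sharp (U := ⊤) (U' := perp {e}) (e := e) hF (fun u _ hu w hw => by
    rw [hw]
    exact hu) (fun x hx u _ v _ hu hv h1 h2 => hsh x u v ⟨hx, hu⟩ ⟨hx, hv⟩ h1 h2) g1 g2
  exact Good.parts hF hFi (g3.congr_right (by ring))

/-- low-dimensional and smooth pieces -/
theorem pieces {F S : Set (EuclideanSpace ℝ (Fin n))} (hF : IsCompact F)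
    (hFi : (interior F).Nonempty) {m r : ℕ} (d : Fin m → EuclideanSpace ℝ (Fin n))
    (K : Fin r → Set (EuclideanSpace ℝ (Fin n))) (c : Fin r → ℕ)
    (hS : IsCompact S) (hSF : convexHull ℝ S = F)
    (hK : ∀ j, IsCompact (K j) ∧ K j ⊆ F)
    (hc : ∀ j, (dm (K j) ≤ 2 ∧ c j = 2 ^ dm (K j)) ∨ (Smooth (K j) ∧ c j = dm (K j) + 1))
    (hT : ∀ x ∈ S, (∀ i, Dark F (d i) x) → ∃ j, x ∈ K j)
    (hn : m + ∑ j, c j ≤ 2 ^ n) : Split F (2 ^ n) := by
  have hpos : ∀ u : EuclideanSpace ℝ (Fin n), u ≠ 0 →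
      ∃ x ∈ F, ∃ y ∈ F, (inner ℝ u x : ℝ) ≠ inner ℝ u y := fun u hu => wide hFi hu
  have hg : ∀ j, GoodOn F (K j) ⊤ (c j) := by
    intro j
    have hW : ∀ a ∈ K j, ∀ b ∈ K j, a - b ∈ dirs (K j) := fun a ha b hb =>
      Submodule.subset_span ⟨a, ha, b, hb, rfl⟩
    apply goodOn_sub (hK j).2 (W := dirs (K j)) _ hW hpos
    rcases hc j with ⟨h1, h2⟩ | ⟨h1, h2⟩
    · rw [h2]
      refine good_small (hK j).1 rfl h1 ?_
      intro u hu hu0
      by_contra hcon
      push Not at hcon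
      apply hu0
      have h2 : ∀ w ∈ dirs (K j), (inner ℝ u w : ℝ) = 0 := by
        intro w hw
        induction hw using Submodule.span_induction with
        | mem x hx =>
          obtain ⟨a, ha, b, hb, rfl⟩ := hx
          rw [inner_sub_right, hcon a ha b hb, sub_self]
        | zero => exact inner_zero_right u
        | add x y _ _ hx hy => rw [inner_add_right, hx, hy, add_zero]
        | smul c x _ hx => rw [real_inner_smul_right, hx, mul_zero]
      exact inner_self_eq_zero.mp (h2 u hu)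
    · rw [h2]
      exact good_smooth (hK j).1 fun x hx u hu v hv hu1 hv1 hux hvx =>
        h1 x u v ⟨hx, hux⟩ ⟨hx, hvx⟩ hu hv hu1 hv1
  have hSF' : S ⊆ F := by
    rw [← hSF]
    exact subset_convexHull ℝ S
  have g1 : GoodOn F S ⊤ (m + ∑ j, c j) := by
    refine goodOn_illum hF d hS hSF' (T := ⋃ j, K j) ?_ (GoodOn.iUnion hg)
    intro x hx hall
    obtain ⟨j, hj⟩ := hT x hx fun i => by
      obtain ⟨u, -, hu1, hu2, hu3⟩ := hall i
      exact ⟨u, hu1, ⟨hSF' hx, hu3⟩, hu2⟩
    exact mem_iUnion.mpr ⟨j, hj⟩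
  exact Good.parts hF hFi ((good_hull hF hSF g1).mono hn)

end Pool.Agent.H11.SWS
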