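import Pool.Agent.H11.SWS.Rim

/-!
# Convex hulls and smooth sets (helper11)
-/

set_option autoImplicit false

open Set
open scoped Pointwise

namespace Pool.Agent.H11.SWS

open Pool.Agent.H11.SWD

variable {E : Type*} [NormedAddCommGroup E] [InnerProductSpace ℝ E] [FiniteDimensional ℝ E]

omit [FiniteDimensional ℝ E] in
/-- the rule for convex hulls -/
theorem good_hull {F S : Set E} (hFc : IsCompact F) (hF : convexHull ℝ S = F)
    {U : Submodule ℝ E} {k : ℕ} (h : GoodOn F S U k) : Good F U k := by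
  obtain ⟨ι, _, G, hcard, hG, hSG, hGa⟩ := h
  have hconv : Convex ℝ F := by
    rw [← hF]
    exact convex_convexHull ℝ _
  have hGF : ∀ a, closure (convexHull ℝ (G a)) ⊆ F := fun a =>
    closure_minimal (convexHull_min (hG a).2 hconv) hFc.isClosed
  have hun : convexHull ℝ (⋃ c, G c) = F := by
    apply Subset.antisymm
    · exact convexHull_min (iUnion_subset fun i => (hG i).2) hconv
    · rw [← hF]
      exact convexHull_mono hSG
  set N : ℝ := (Fintype.card ι : ℝ) with hN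
  set C : ι → Set E := fun c => {z | ∃ t ∈ Icc N⁻¹ 1, ∃ x ∈ closure
    (convexHull ℝ (G c)), ∃ y ∈ F, t • x + (1 - t) • y = z} with hC
  have hCF : ∀ c, C c ⊆ F := by
    rintro c z ⟨t, ht, x, hx, y, hy, rfl⟩
    have ht0 : 0 ≤ t := le_trans (by rw [hN]; positivity) ht.1
    exact hconv (hGF _ hx) hy ht0 (by linarith [ht.2]) (by ring)
  refine ⟨ι, inferInstance, C, hcard, ?_, ?_, ?_⟩
  · intro c
    have h1 : IsCompact (closure (convexHull ℝ (G c))) :=
      hFc.of_isClosed_subset isClosed_closure (hGF _)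
    have h2 : IsCompact ((Icc N⁻¹ (1:ℝ)) ×ˢ (closure (convexHull ℝ (G c)) ×ˢ F)) :=
      isCompact_Icc.prod (h1.prod hFc)
    have h3 : C c = (fun p : ℝ × E × E => p.1 • p.2.1 + (1 - p.1) • p.2.2) ''
        ((Icc N⁻¹ (1:ℝ)) ×ˢ (closure (convexHull ℝ (G c)) ×ˢ F)) := by
      ext z
      constructor
      · rintro ⟨t, ht, x, hx, y, hy, rfl⟩
        exact ⟨(t, x, y), ⟨ht, hx, hy⟩, rfl⟩
      · rintro ⟨⟨t, x, y⟩, ⟨ht, hx, hy⟩, rfl⟩
        exact ⟨t, ht, x, hx, y, hy, rfl⟩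
    rw [h3]
    exact h2.image (by fun_prop)
  · apply Subset.antisymm
    · intro z hz
      obtain ⟨c, t, ht1, ht2, x, hx, y, hy, h⟩ := pigeon hun hz
      exact mem_iUnion.mpr ⟨c, t, ⟨ht1, ht2⟩, x, subset_closure hx, y, hy, h⟩
    · exact iUnion_subset hCF
  · intro c z hz z' hz' u hu hu0 hant
    have hA : Nonempty ι := ⟨c⟩
    have hN0 : 0 < N := by
      rw [hN]
      exact_mod_cast Fintype.card_pos
    have key : ∀ v z : E, z ∈ C c → Mx F v z → ∃ g ∈ G c, Mx F v g := by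
      rintro v z ⟨t, ht, x, hx, y, hy, rfl⟩ hm
      have ht0 : 0 < t := lt_of_lt_of_le (by positivity) ht.1
      obtain ⟨g, hg, hxg⟩ := dominated (hG c).1 hx v
      refine ⟨g, hg, fun w hw => ?_⟩
      have h1 := hm w hw
      have h2 := hm y hy
      rw [inner_add_right, real_inner_smul_right, real_inner_smul_right] at h1 h2
      have h3 : (inner ℝ v y : ℝ) ≤ inner ℝ v x := by
        have : t * (inner ℝ v y : ℝ) ≤ t * inner ℝ v x := by linarith
        exact le_of_mul_le_mul_left this ht0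
      have h4 : (1 - t) * (inner ℝ v y : ℝ) ≤ (1 - t) * inner ℝ v x :=
        mul_le_mul_of_nonneg_left h3 (by linarith [ht.2])
      linarith
    obtain ⟨g, hg, hmg⟩ := key u z hz hant.1
    obtain ⟨g', hg', hmg'⟩ := key (-u) z' hz' hant.2
    exact hGa c g hg g' hg' u hu hu0 ⟨hmg, hmg'⟩

omit [FiniteDimensional ℝ E] in
/-- a subset with its own partition -/
theorem goodOn_sub {F K : Set E} (hKF : K ⊆ F) {W : Submodule ℝ E} [W.HasOrthogonalProjection]
    {k : ℕ} (hg : Good K W k) (hW : ∀ a ∈ K, ∀ b ∈ K, a - b ∈ W)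
    (hpos : ∀ u : E, u ≠ 0 → ∃ x ∈ F, ∃ y ∈ F, (inner ℝ u x : ℝ) ≠ inner ℝ u y) :
    GoodOn F K ⊤ k := by
  obtain ⟨ι, _, G, h1, h2, h3, h4⟩ := hg
  have hGK : ∀ i, G i ⊆ K := fun i x hx => by
    rw [h3]
    exact mem_iUnion.mpr ⟨i, hx⟩
  refine ⟨ι, _, G, h1, fun i => ⟨h2 i, (hGK i).trans hKF⟩, h3.subset, ?_⟩
  rintro i g hg g' hg' u - hu0 ⟨hmg, hmg'⟩
  have hgK := hGK _ hg
  have hgK' := hGK _ hg'
  by_cases hall : ∀ w ∈ W, (inner ℝ u w : ℝ) = 0
  · obtain ⟨a, ha, b, hb, hne⟩ := hpos u hu0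
    have h1 := hall _ (hW g hgK g' hgK')
    rw [inner_sub_right] at h1
    have h2 := hmg a ha
    have h3 := hmg b hb
    have h4 := hmg' a ha
    have h5 := hmg' b hb
    simp only [inner_neg_left] at h4 h5
    apply hne
    linarith
  · set v : E := W.starProjection u with hv
    have hvW : v ∈ W := W.starProjection_apply_mem u
    have hvw : ∀ w ∈ W, (inner ℝ v w : ℝ) = inner ℝ u w := by
      intro w hw
      have h5 : (inner ℝ w (u - v) : ℝ) = 0 := by
        rw [hv]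
        exact (Submodule.mem_orthogonal W _).mp
          (Submodule.sub_starProjection_mem_orthogonal u) w hw
      rw [inner_sub_right] at h5
      rw [real_inner_comm w v, real_inner_comm w u]
      linarith
    have hv0 : v ≠ 0 := by
      intro h0
      apply hall
      intro w hw
      rw [← hvw w hw, h0, inner_zero_left]
    refine h4 i g hg g' hg' v hvW hv0 ⟨fun w hw => ?_, fun w hw => ?_⟩
    · have h1 := hmg w (hKF hw)
      have h2 := hvw (w - g) (hW w hw g hgK)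
      rw [inner_sub_right, inner_sub_right] at h2
      linarith
    · have h1 := hmg' w (hKF hw)
      have h2 := hvw (w - g') (hW w hw g' hgK')
      rw [inner_sub_right, inner_sub_right] at h2
      simp only [inner_neg_left] at h1 ⊢
      linarith

omit [FiniteDimensional ℝ E] in
theorem GoodOn.iUnion {F : Set E} {m : ℕ} {K : Fin m → Set E} {U : Submodule ℝ E}
    {k : Fin m → ℕ} (h : ∀ i, GoodOn F (K i) U (k i)) : GoodOn F (⋃ i, K i) U (∑ i, k i) := by
  choose T hT G hcard hG hSG hGa using h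
  refine ⟨Σ i, T i, inferInstance, fun c => G c.1 c.2, ?_, fun c => hG c.1 c.2, ?_,
    fun c => hGa c.1 c.2⟩
  · rw [Fintype.card_sigma]
    exact Finset.sum_congr rfl fun i _ => hcard i
  · intro x hx
    obtain ⟨i, hi⟩ := mem_iUnion.mp hx
    obtain ⟨a, ha⟩ := mem_iUnion.mp (hSG i hi)
    exact mem_iUnion.mpr ⟨⟨i, a⟩, ha⟩

/-- it is enough to cover the points with normals -/
theorem good_of_boundary {F S : Set E} (hF : IsCompact F) {U : Submodule ℝ E} {k : ℕ}
    (hk : 0 < k) (hS : ∀ x ∈ F, ∀ u ∈ U, u ≠ 0 → Mx F u x → x ∈ S) (h : GoodOn F S U k) :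
    Good F U k := by
  classical
  obtain ⟨ι, _, G, R, h1, h2, hR, hRF, hRS, hcov, h4⟩ := h.prepare hF
  have hι : Nonempty ι := by
    rw [← Fintype.card_pos_iff, h1]
    exact hk
  have hno : ∀ x ∈ R, ∀ u ∈ U, u ≠ 0 → ¬ Mx F u x := fun x hx u hu hu0 hm =>
    Set.disjoint_left.mp hRS hx (hS x (hRF hx) u hu hu0 hm)
  refine ⟨ι, inferInstance, fun i => G i ∪ R, h1, fun i => (h2 i).union hR, ?_, ?_⟩
  · rw [hcov]
    ext x
    simp only [mem_union, mem_iUnion]
    constructor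
    · rintro (⟨i, hi⟩ | hx)
      · exact ⟨i, Or.inl hi⟩
      · exact ⟨hι.some, Or.inr hx⟩
    · rintro ⟨i, hi | hx⟩
      · exact Or.inl ⟨i, hi⟩
      · exact Or.inr hx
  · intro i x hx y hy u hu hu0 hant
    rcases hx with hx | hx
    · rcases hy with hy | hy
      · exact h4 i x hx y hy u hu hu0 hant
      · exact hno y hy (-u) (U.neg_mem hu) (neg_ne_zero.mpr hu0) hant.2
    · exact hno x hx u hu hu0 hant.1

/-- smooth sets -/
theorem good_smooth {K : Set E} (hK : IsCompact K) {W : Submodule ℝ E}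
    (hsm : ∀ x ∈ K, ∀ u ∈ W, ∀ v ∈ W, ‖u‖ = 1 → ‖v‖ = 1 → Mx K u x → Mx K v x → u = v) :
    Good K W (Module.finrank ℝ W + 1) := by
  set d := Module.finrank ℝ W with hd
  have B := Module.finBasisOfFinrankEq ℝ W hd.symm
  set e : Option (Fin d) → E := fun o => Option.elim o (-∑ i, (B i : E)) (fun i => (B i : E))
    with he
  have hex : ∀ u ∈ W, u ≠ 0 → ∃ o, 0 < (inner ℝ u (e o) : ℝ) := by
    intro u hu hu0
    by_contra hcon
    push Not at hcon
    have h1 : ∀ i, (inner ℝ u (B i : E) : ℝ) ≤ 0 := fun i => hcon (some i)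
    have h2 : (inner ℝ u (-∑ i, (B i : E)) : ℝ) ≤ 0 := hcon none
    rw [inner_neg_right, inner_sum] at h2
    have h3 : ∑ i, (inner ℝ u (B i : E) : ℝ) = 0 :=
      le_antisymm (Finset.sum_nonpos fun i _ => h1 i) (by linarith)
    have h4 : ∀ i, (inner ℝ u (B i : E) : ℝ) = 0 := fun i =>
      (Finset.sum_eq_zero_iff_of_nonpos fun i _ => h1 i).mp h3 i (Finset.mem_univ _)
    apply hu0
    have h5 : u = ∑ i, (B.repr ⟨u, hu⟩ i) • (B i : E) := by
      have h6 := congrArg W.subtype (B.sum_repr ⟨u, hu⟩)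
      rw [map_sum] at h6
      simp only [map_smul, Submodule.subtype_apply] at h6
      exact h6.symm
    have h6 : (inner ℝ u u : ℝ) = 0 := by
      have h7 : (inner ℝ u u : ℝ) = inner ℝ u (∑ i, (B.repr ⟨u, hu⟩ i) • (B i : E)) :=
        congrArg (fun v => (inner ℝ u v : ℝ)) h5
      rw [h7, inner_sum]
      refine Finset.sum_eq_zero fun i _ => ?_
      rw [real_inner_smul_right, h4 i, mul_zero]
    exact inner_self_eq_zero.mp h6
  -- the margin
  have hsph : IsCompact {u : E | u ∈ W ∧ ‖u‖ = 1} := by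
    have : {u : E | u ∈ W ∧ ‖u‖ = 1} = Metric.sphere (0:E) 1 ∩ (W : Set E) := by
      ext u
      simp [and_comm]
    rw [this]
    exact (isCompact_sphere _ _).inter_right (Submodule.closed_of_finiteDimensional W)
  obtain ⟨δ, hδ0, hδ⟩ : ∃ δ : ℝ, 0 < δ ∧ ∀ u ∈ W, ‖u‖ = 1 → ∃ o, δ ≤ (inner ℝ u (e o) : ℝ) := by
    rcases Set.eq_empty_or_nonempty {u : E | u ∈ W ∧ ‖u‖ = 1} with h0 | h0
    · refine ⟨1, one_pos, fun u hu hu1 => ?_⟩
      have : u ∈ {u : E | u ∈ W ∧ ‖u‖ = 1} := ⟨hu, hu1⟩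
      rw [h0] at this
      exact absurd this (Set.notMem_empty u)
    · have hc : Continuous (fun u : E => Finset.univ.sup' Finset.univ_nonempty
          (fun o => (inner ℝ u (e o) : ℝ))) := by
        apply Continuous.finset_sup'_apply
        intro o _
        fun_prop
      obtain ⟨u₀, hu₀, hmin⟩ := hsph.exists_isMinOn h0 hc.continuousOn
      rw [isMinOn_iff] at hmin
      refine ⟨Finset.univ.sup' Finset.univ_nonempty (fun o => (inner ℝ u₀ (e o) : ℝ)), ?_, ?_⟩
      · have hne : u₀ ≠ 0 := by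
          rintro rfl
          have := hu₀.2
          simp at this
        obtain ⟨o, ho⟩ := hex u₀ hu₀.1 hne
        rw [Finset.lt_sup'_iff]
        exact ⟨o, Finset.mem_univ _, ho⟩
      · intro u hu hu1
        have h1 := hmin u ⟨hu, hu1⟩
        obtain ⟨o, -, ho⟩ := Finset.exists_mem_eq_sup' Finset.univ_nonempty
          (fun o => (inner ℝ u (e o) : ℝ))
        exact ⟨o, by rw [← ho]; exact h1⟩
  refine good_of_boundary hK (Nat.succ_pos _) (S := {x | x ∈ K ∧ ∃ u ∈ W, ‖u‖ = 1 ∧ Mx K u x})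
    ?_ ?_
  · intro x hx u hu hu0 hm
    have hn : 0 < ‖u‖ := norm_pos_iff.mpr hu0
    refine ⟨hx, ‖u‖⁻¹ • u, W.smul_mem _ hu, ?_, hm.smul (by positivity)⟩
    rw [norm_smul, norm_inv, norm_norm]
    exact inv_mul_cancel₀ hn.ne'
  · refine ⟨Option (Fin d), inferInstance, fun o => {x | x ∈ K ∧ ∃ u ∈ W, ‖u‖ = 1 ∧
      δ ≤ (inner ℝ u (e o) : ℝ) ∧ Mx K u x}, by simp, fun o =>
        ⟨isCompact_normals hK W (e o) δ, fun x hx => hx.1⟩, ?_, ?_⟩
    · rintro x ⟨hx, u, hu, hu1, hm⟩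
      obtain ⟨o, ho⟩ := hδ u hu hu1
      exact mem_iUnion.mpr ⟨o, hx, u, hu, hu1, ho, hm⟩
    · rintro o x ⟨hx, a, ha, ha1, ha2, ha3⟩ y ⟨hy, b, hb, hb1, hb2, hb3⟩ u hu hu0 hant
      obtain ⟨v, hv, hv1, hvant⟩ := hant.unit hu hu0
      have e1 := hsm x hx a ha v hv ha1 hv1 ha3 hvant.1
      have e2 := hsm y hy b hb (-v) (W.neg_mem hv) hb1 (by rw [norm_neg, hv1]) hb3 hvant.2
      rw [e1] at ha2
      rw [e2, inner_neg_left] at hb2
      linarith

omit [FiniteDimensional ℝ E] in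
/-- more parts -/
theorem Good.mono {F : Set E} {U : Submodule ℝ E} {k l : ℕ} (h : Good F U k) (hkl : k ≤ l) :
    Good F U l := by
  obtain ⟨ι, _, G, h1, h2, h3, h4⟩ := h
  refine ⟨ι ⊕ Fin (l - k), inferInstance, fun a => Sum.elim G (fun _ => ∅) a, ?_, ?_, ?_, ?_⟩
  · rw [Fintype.card_sum, h1, Fintype.card_fin]
    omega
  · rintro (i | i)
    · exact h2 i
    · exact isCompact_empty
  · rw [h3]
    ext x
    simp only [mem_iUnion, Sum.exists, Sum.elim_inl, Sum.elim_inr, mem_empty_iff_false,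
      exists_false, or_false]
  · rintro (i | i) x hx y hy
    · exact h4 i x hx y hy
    · exact absurd hx (Set.notMem_empty x)

end Pool.Agent.H11.SWS
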