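import Pool.Agent.H11.SWS.Main

/-!
# Convex hulls (helper11)
-/

set_option autoImplicit false

open Set
open scoped Pointwise

namespace Pool.Agent.H11.SWS

open Pool.Agent.H11.SWD

variable {E : Type*} [NormedAddCommGroup E] [InnerProductSpace ℝ E]

/-- a point of the closed convex hull is dominated by a point of the compact set -/
theorem dominated {G : Set E} (hG : IsCompact G) {x : E} (hx : x ∈ closure (convexHull ℝ G))
    (u : E) : ∃ g ∈ G, (inner ℝ u x : ℝ) ≤ inner ℝ u g := by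
  have hGne : G.Nonempty := by
    have h1 : (convexHull ℝ G).Nonempty := closure_nonempty_iff.mp ⟨x, hx⟩
    exact convexHull_nonempty_iff.mp h1
  have hfc : Continuous (fun x : E => (inner ℝ u x : ℝ)) := by fun_prop
  obtain ⟨g, hg, hmax⟩ := hG.exists_isMaxOn hGne hfc.continuousOn
  rw [isMaxOn_iff] at hmax
  refine ⟨g, hg, ?_⟩
  have h2 : closure (convexHull ℝ G) ⊆ {z | (inner ℝ u z : ℝ) ≤ inner ℝ u g} := by
    apply closure_minimal _ (isClosed_le hfc continuous_const)
    apply convexHull_min (fun z hz => hmax z hz)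
    exact convex_halfSpace_le (innerSL ℝ u).isLinear _
  exact h2 hx

/-- one colour carries a definite part of the weight -/
theorem pigeon {A : Type} [Fintype A] {G : A → Set E} {F : Set E}
    (hF : convexHull ℝ (⋃ c, G c) = F) {z : E} (hz : z ∈ F) :
    ∃ c : A, ∃ t : ℝ, (Fintype.card A : ℝ)⁻¹ ≤ t ∧ t ≤ 1 ∧ ∃ x ∈ convexHull ℝ (G c), ∃ y ∈ F,
      t • x + (1 - t) • y = z := by
  classical
  have hz' := hz
  rw [← hF, mem_convexHull_iff_exists_fintype] at hz'
  obtain ⟨ι, _, w, f, hw0, hw1, hf, hsum⟩ := hz'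
  choose c hc using fun i => mem_iUnion.mp (hf i)
  have hι : Nonempty ι := by
    by_contra h
    rw [not_nonempty_iff] at h
    rw [Finset.univ_eq_empty, Finset.sum_empty] at hw1
    exact zero_ne_one hw1
  have hA : Nonempty A := ⟨c hι.some⟩
  have hN : (0:ℝ) < Fintype.card A := by exact_mod_cast Fintype.card_pos
  obtain ⟨c₀, hc₀⟩ : ∃ c₀ : A, (Fintype.card A : ℝ)⁻¹ ≤
      ∑ i ∈ Finset.univ.filter (fun i => c i = c₀), w i := by
    by_contra hcon
    push Not at hcon
    have h1 : ∑ c₀ : A, ∑ i ∈ Finset.univ.filter (fun i => c i = c₀), w i = 1 := by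
      simp only [Finset.sum_filter]
      rw [Finset.sum_comm, ← hw1]
      refine Finset.sum_congr rfl fun i _ => ?_
      rw [Finset.sum_ite_eq, if_pos (Finset.mem_univ _)]
    have h2 : ∑ c₀ : A, ∑ i ∈ Finset.univ.filter (fun i => c i = c₀), w i <
        ∑ _c₀ : A, (Fintype.card A : ℝ)⁻¹ :=
      Finset.sum_lt_sum_of_nonempty Finset.univ_nonempty fun c₀ _ => hcon c₀
    rw [h1, Finset.sum_const, Finset.card_univ, nsmul_eq_mul, mul_inv_cancel₀ hN.ne'] at h2
    exact lt_irrefl _ h2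
  set s₁ := Finset.univ.filter (fun i => c i = c₀) with hs₁
  set s₂ := Finset.univ.filter (fun i => ¬ c i = c₀) with hs₂
  set t : ℝ := ∑ i ∈ s₁, w i with ht
  have ht0 : 0 < t := lt_of_lt_of_le (by positivity) hc₀
  have hsplit : t + ∑ i ∈ s₂, w i = 1 := by
    rw [ht, hs₁, hs₂, Finset.sum_filter_add_sum_filter_not]
    exact hw1
  have hs20 : 0 ≤ ∑ i ∈ s₂, w i := Finset.sum_nonneg fun i _ => hw0 i
  have hx : s₁.centerMass w f ∈ convexHull ℝ (G c₀) := by
    apply Finset.centerMass_mem_convexHull _ (fun i _ => hw0 i) ht0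
    intro i hi
    rw [hs₁, Finset.mem_filter] at hi
    rw [← hi.2]
    exact hc i
  have hx1 : t • s₁.centerMass w f = ∑ i ∈ s₁, w i • f i := by
    rw [Finset.centerMass, smul_smul, ← ht, mul_inv_cancel₀ ht0.ne', one_smul]
  have hz2 : z = ∑ i ∈ s₁, w i • f i + ∑ i ∈ s₂, w i • f i := by
    rw [hs₁, hs₂, Finset.sum_filter_add_sum_filter_not]
    exact hsum.symm
  refine ⟨c₀, t, hc₀, by linarith, s₁.centerMass w f, hx, ?_⟩
  rcases hs20.lt_or_eq with h | h
  · refine ⟨s₂.centerMass w f, ?_, ?_⟩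
    · rw [← hF]
      exact Finset.centerMass_mem_convexHull _ (fun i _ => hw0 i) h fun i _ => hf i
    · have e : 1 - t = ∑ i ∈ s₂, w i := by linarith
      rw [hx1, e, Finset.centerMass, smul_smul, mul_inv_cancel₀ h.ne', one_smul]
      exact hz2.symm
  · refine ⟨z, hz, ?_⟩
    have e : 1 - t = 0 := by linarith
    have h0 : ∀ i ∈ s₂, w i = 0 := (Finset.sum_eq_zero_iff_of_nonneg fun i _ => hw0 i).mp h.symm
    have h1 : ∑ i ∈ s₂, w i • f i = 0 := Finset.sum_eq_zero fun i hi => by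
      rw [h0 i hi, zero_smul]
    rw [e, zero_smul, add_zero, hx1]
    conv_rhs => rw [hz2, h1, add_zero]

end Pool.Agent.H11.SWS
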