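import Pool.Agent.H11.SWS.Planar
import Pool.Agent.H11.SWS.Defs

/-!
# Summands and regular directions (helper11)
-/

set_option autoImplicit false

open Set
open scoped Pointwise

namespace Pool.Agent.H11.SWS

open Pool.Agent.H11.SWD

section general

variable {E : Type*} [NormedAddCommGroup E] [InnerProductSpace ℝ E]

/-- spaces of directions of dimension at most two -/
theorem good_small {F : Set E} (hF : IsCompact F) {U : Submodule ℝ E} [FiniteDimensional ℝ U]
    {t : ℕ} (ht : Module.finrank ℝ U = t) (ht2 : t ≤ 2)
    (hw : ∀ u ∈ U, u ≠ 0 → ∃ x ∈ F, ∃ y ∈ F, (inner ℝ u x : ℝ) ≠ inner ℝ u y) :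
    Good F U (2 ^ t) := by
  rcases Nat.lt_or_ge t 1 with h0 | h0
  · have ht0 : t = 0 := by omega
    subst ht0
    have hU : U = ⊥ := Submodule.finrank_eq_zero.mp ht
    exact good_bot hF (fun u hu => by rw [hU] at hu; exact (Submodule.mem_bot ℝ).mp hu)
  rcases Nat.lt_or_ge t 2 with h1 | h1
  · have ht1 : t = 1 := by omega
    subst ht1
    obtain ⟨b, hb0, hb⟩ := finrank_eq_one_iff'.mp ht
    have hb0' : (b : E) ≠ 0 := fun h => hb0 (Subtype.ext h)
    refine good_line hF (b := b) ?_ (hw b b.2 hb0')
    intro u hu
    obtain ⟨c, hc⟩ := hb ⟨u, hu⟩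
    exact ⟨c, by
      have := congrArg Subtype.val hc
      simpa using this.symm⟩
  · have ht2' : t = 2 := by omega
    subst ht2'
    have B := Module.finBasisOfFinrankEq ℝ U ht
    refine good_plane hF (b₁ := B 0) (b₂ := B 1) (B 0).2 (B 1).2 ?_ ?_ hw
    · intro u hu
      refine ⟨B.repr ⟨u, hu⟩ 0, B.repr ⟨u, hu⟩ 1, ?_⟩
      have h2 := B.sum_repr ⟨u, hu⟩
      rw [Fin.sum_univ_two] at h2
      have := congrArg Subtype.val h2
      simpa using this.symm
    · intro s t hst
      have hli := B.linearIndependent
      have h3 : s • B 0 + t • B 1 = 0 := by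
        apply Subtype.ext
        simpa using hst
      have h4 := (Fintype.linearIndependent_iff.mp hli) ![s, t] (by
        rw [Fin.sum_univ_two]
        simpa using h3)
      exact ⟨by simpa using h4 0, by simpa using h4 1⟩

/-- the orthogonal complement of a set -/
def perp (S : Set E) : Submodule ℝ E where
  carrier := {u | ∀ w ∈ S, (inner ℝ u w : ℝ) = 0}
  add_mem' := fun {a b} ha hb w hw => by
    rw [inner_add_left, ha w hw, hb w hw, add_zero]
  zero_mem' := fun w _ => inner_zero_left w
  smul_mem' := fun c u hu w hw => by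
    rw [real_inner_smul_left, hu w hw, mul_zero]

theorem mem_perp {S : Set E} {u : E} : u ∈ perp S ↔ ∀ w ∈ S, (inner ℝ u w : ℝ) = 0 := Iff.rfl

end general

variable {n : ℕ}

theorem width_eq (G : Set (EuclideanSpace ℝ (Fin n))) (u : EuclideanSpace ℝ (Fin n)) :
    width G u = sSup ((fun x => (inner ℝ u x : ℝ)) '' G) -
      sInf ((fun x => (inner ℝ u x : ℝ)) '' G) := rfl

/-- positive width in all directions -/
theorem wide {F : Set (EuclideanSpace ℝ (Fin n))} (hFi : (interior F).Nonempty)
    {u : EuclideanSpace ℝ (Fin n)} (hu : u ≠ 0) :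
    ∃ x ∈ F, ∃ y ∈ F, (inner ℝ u x : ℝ) ≠ inner ℝ u y := by
  obtain ⟨x, hx⟩ := hFi
  obtain ⟨r, hr, hball⟩ := Metric.isOpen_iff.mp isOpen_interior x hx
  have hn : 0 < ‖u‖ := norm_pos_iff.mpr hu
  refine ⟨x, interior_subset hx, x + (r / (2 * ‖u‖)) • u, interior_subset (hball ?_), ?_⟩
  · rw [Metric.mem_ball, dist_eq_norm, add_sub_cancel_left, norm_smul, Real.norm_of_nonneg
      (by positivity)]
    have : r / (2 * ‖u‖) * ‖u‖ = r / 2 := by field_simp
    rw [this]
    linarith
  · rw [inner_add_right, real_inner_smul_right, real_inner_self_eq_norm_sq]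
    have : 0 < r / (2 * ‖u‖) * ‖u‖ ^ 2 := by positivity
    linarith

/-- a partition without antipodal pairs is one into sets of smaller width -/
theorem Good.parts {F : Set (EuclideanSpace ℝ (Fin n))} (hF : IsCompact F)
    (hFi : (interior F).Nonempty) {k : ℕ} (h : Good F ⊤ k) :
    Split F k := by
  obtain ⟨ι, _, G, h1, h2, h3, h4⟩ := h
  set φ : Fin k ≃ ι := (Fintype.equivFinOfCardEq h1).symm
  have hu' : F = ⋃ i : Fin k, G (φ i) := by
    rw [h3]
    exact (φ.surjective.iUnion_comp G).symm
  refine ⟨disjointed (fun i => G (φ i)), ?_, fun i j hij => disjoint_disjointed _ hij, ?_⟩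
  · rw [iUnion_disjointed, ← hu']
  · intro i u hu
    have hu1 : ‖u‖ = 1 := hu
    have hu0 : u ≠ 0 := by
      rintro rfl
      simp at hu1
    have hsub : disjointed (fun i => G (φ i)) i ⊆ G (φ i) := disjointed_subset _ i
    set H := disjointed (fun i => G (φ i)) i with hH
    set f : EuclideanSpace ℝ (Fin n) → ℝ := fun x => inner ℝ u x with hf
    have hfc : Continuous f := by
      rw [hf]
      fun_prop
    have hcF : IsCompact (f '' F) := hF.image hfc
    have hGF : G (φ i) ⊆ F := fun x hx => by
      rw [h3]
      exact mem_iUnion.mpr ⟨φ i, hx⟩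
    rw [width_eq, width_eq]
    obtain ⟨a, ha, b, hb, hab⟩ := wide hFi hu0
    have hMF : ∀ z ∈ F, f z ≤ sSup (f '' F) := fun z hz =>
      le_csSup hcF.bddAbove (mem_image_of_mem f hz)
    have hmF : ∀ z ∈ F, sInf (f '' F) ≤ f z := fun z hz =>
      csInf_le hcF.bddBelow (mem_image_of_mem f hz)
    rcases H.eq_empty_or_nonempty with h0 | h0
    · rw [h0, image_empty, Real.sSup_empty, Real.sInf_empty]
      have e1 := hMF a ha
      have e2 := hMF b hb
      have e3 := hmF a ha
      have e4 := hmF b hb
      have : f a ≠ f b := hab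
      rcases lt_or_gt_of_ne this with h | h <;> linarith
    · have hcG : IsCompact (f '' G (φ i)) := (h2 _).image hfc
      have hGne : (G (φ i)).Nonempty := h0.mono hsub
      have e1 : sSup (f '' H) ≤ sSup (f '' G (φ i)) :=
        csSup_le_csSup hcG.bddAbove (h0.image f) (image_mono hsub)
      have e2 : sInf (f '' G (φ i)) ≤ sInf (f '' H) :=
        csInf_le_csInf hcG.bddBelow (h0.image f) (image_mono hsub)
      obtain ⟨x, hx, ex⟩ := hcG.sSup_mem (hGne.image f)
      obtain ⟨y, hy, ey⟩ := hcG.sInf_mem (hGne.image f)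
      rw [← ex] at e1
      rw [← ey] at e2
      have e3 := hMF x (hGF hx)
      have e4 := hmF y (hGF hy)
      by_contra hcon
      push Not at hcon
      have hxM : f x = sSup (f '' F) := by linarith
      have hym : f y = sInf (f '' F) := by linarith
      refine h4 (φ i) x hx y hy u Submodule.mem_top hu0 ⟨fun z hz => ?_, fun z hz => ?_⟩
      · exact (hMF z hz).trans hxM.ge
      · rw [inner_neg_left, inner_neg_left, neg_le_neg_iff]
        exact hym.le.trans (hmF z hz)

/-- smaller widths give a partition without antipodal pairs -/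
theorem good_of_covered {L : Set (EuclideanSpace ℝ (Fin n))} (hL : IsCompact L)
    {D : EuclideanSpace ℝ (Fin n) → Prop} {p : ℕ} (h : Cov L L D p)
    {W : Submodule ℝ (EuclideanSpace ℝ (Fin n))} (hW : ∀ u ∈ W, D u) : Good L W p := by
  obtain ⟨A, hA, hs⟩ := h
  have hAL : ∀ i, A i ⊆ L := fun i x hx => by
    rw [← hA]
    exact mem_iUnion.mpr ⟨i, hx⟩
  have hcL : ∀ i, closure (A i) ⊆ L := fun i => closure_minimal (hAL i) hL.isClosed
  refine ⟨Fin p, inferInstance, fun i => closure (A i), by simp,
    fun i => hL.of_isClosed_subset isClosed_closure (hcL i), ?_, ?_⟩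
  · apply Subset.antisymm
    · rw [← hA]
      exact iUnion_mono fun i => subset_closure
    · exact iUnion_subset hcL
  · intro i x hx y hy u hu hu0 hant
    have hn : 0 < ‖u‖ := norm_pos_iff.mpr hu0
    set v : EuclideanSpace ℝ (Fin n) := ‖u‖⁻¹ • u with hv
    have hvW : v ∈ W := W.smul_mem _ hu
    have hv1 : ‖v‖ = 1 := by
      rw [hv, norm_smul, norm_inv, norm_norm]
      exact inv_mul_cancel₀ hn.ne'
    have ha : Mx L v x := hant.1.smul (by positivity)
    have hb : Mx L (-v) y := by
      have := hant.2.smul (c := ‖u‖⁻¹) (by positivity)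
      rwa [smul_neg] at this
    have h5 := hs i v hv1 (hW v hvW)
    rw [width_eq, width_eq] at h5
    set f : EuclideanSpace ℝ (Fin n) → ℝ := fun x => inner ℝ v x with hf
    have hfc : Continuous f := by
      rw [hf]
      fun_prop
    have hcL' : IsCompact (f '' L) := hL.image hfc
    have hbA : BddAbove (f '' A i) := hcL'.bddAbove.mono (image_mono (hAL i))
    have hbB : BddBelow (f '' A i) := hcL'.bddBelow.mono (image_mono (hAL i))
    have e1 : f x ≤ sSup (f '' A i) := by
      have : closure (A i) ⊆ {z | f z ≤ sSup (f '' A i)} :=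
        closure_minimal (fun z hz => le_csSup hbA (mem_image_of_mem f hz))
          (isClosed_le hfc continuous_const)
      exact this hx
    have e2 : sInf (f '' A i) ≤ f y := by
      have : closure (A i) ⊆ {z | sInf (f '' A i) ≤ f z} :=
        closure_minimal (fun z hz => csInf_le hbB (mem_image_of_mem f hz))
          (isClosed_le continuous_const hfc)
      exact this hy
    have hLne : (f '' L).Nonempty := ⟨f x, mem_image_of_mem f (hcL i hx)⟩
    have e3 : sSup (f '' L) ≤ f x := by
      apply csSup_le hLne
      rintro _ ⟨z, hz, rfl⟩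
      exact ha z hz
    have e4 : f y ≤ sInf (f '' L) := by
      apply le_csInf hLne
      rintro _ ⟨z, hz, rfl⟩
      have := hb z hz
      rw [inner_neg_left, inner_neg_left, neg_le_neg_iff] at this
      exact this
    linarith

theorem sum_eq {K L F : Set (EuclideanSpace ℝ (Fin n))}
    (h : {z | ∃ x ∈ K, ∃ y ∈ L, x + y = z} = F) : K + L = F := by
  rw [← h]
  ext z
  simp only [Set.mem_add, Set.mem_ofPred_eq]

/-- the product rule -/
theorem product {K L F : Set (EuclideanSpace ℝ (Fin n))} (h : Summands K L F)
    (hFi : (interior F).Nonempty) {p q : ℕ} (hL : Cov L L (fun u => u ∈ dirs L) p)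
    (hK : Cov K K (fun u => Perp u (dirs L : Set _)) q) : Split F (p * q) := by
  obtain ⟨hKc, hLc, hKL⟩ := h
  have hs := sum_eq hKL
  have hF : IsCompact F := by
    rw [← hs]
    exact hKc.add hLc
  have g1 : Good L (dirs L) p := good_of_covered hLc hL fun u hu => hu
  have g2 : Good K (perp (dirs L : Set (EuclideanSpace ℝ (Fin n)))) q :=
    good_of_covered hKc hK fun u hu => hu
  have g3 := g2.of_summand hLc hs
  refine Good.parts hF hFi (Good.add (W := dirs L) hKc hs ?_ g1 ?_ g3)
  · intro a ha b hb
    exact Submodule.subset_span ⟨a, ha, b, hb, rfl⟩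
  · intro u _ hu
    exact hu

/-- the main theorem -/
theorem main {F : Set (EuclideanSpace ℝ (Fin n))} (hF : IsCompact F)
    (hFi : (interior F).Nonempty) {r s : ℕ} {K L : Fin r → Set (EuclideanSpace ℝ (Fin n))}
    (e : Fin s → EuclideanSpace ℝ (Fin n)) (hsum : ∀ j, Summands (K j) (L j) F)
    (hd : ∀ j, dm (L j) ≤ 2)
    (hind : Module.finrank ℝ (Submodule.span ℝ ((⋃ j, (dirs (L j) : Set _)) ∪ range e)) =
      ∑ j, dm (L j) + s)
    (hn : n ≤ ∑ j, dm (L j) + s + 2)
    (hreg : ∀ (j : Fin s) (x u v : EuclideanSpace ℝ (Fin n)), Outer F u x → Outer F v x →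
      Perp u ((⋃ i, (dirs (L i) : Set _)) ∪ {w | ∃ i, i < j ∧ e i = w}) →
      Perp v ((⋃ i, (dirs (L i) : Set _)) ∪ {w | ∃ i, i < j ∧ e i = w}) →
      ¬ (0 < ip u (e j) ∧ ip v (e j) < 0)) :
    Split F (2 ^ n) := by
  set d : Fin r → ℕ := fun j => dm (L j) with hd'
  set S : Set (EuclideanSpace ℝ (Fin n)) := (⋃ j, (dirs (L j) : Set _)) ∪ range e with hS
  -- the last space of directions
  set t : ℕ := Module.finrank ℝ (perp S) with ht
  have hperp : perp S = (Submodule.span ℝ S)ᗮ := by
    apply le_antisymm
    · intro u hu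
      rw [Submodule.mem_orthogonal']
      intro w hw
      induction hw using Submodule.span_induction with
      | mem x hx => exact hu x hx
      | zero => exact inner_zero_right u
      | add x y _ _ hx hy => rw [inner_add_right, hx, hy, add_zero]
      | smul c x _ hx => rw [real_inner_smul_right, hx, mul_zero]
    · intro u hu w hw
      rw [Submodule.mem_orthogonal'] at hu
      exact hu w (Submodule.subset_span hw)
  have htot : ∑ j, d j + s + t = n := by
    have h1 := Submodule.finrank_add_finrank_orthogonal (Submodule.span ℝ S)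
    rw [hind, ← hperp, ← ht, finrank_euclideanSpace, Fintype.card_fin] at h1
    exact h1
  have ht2 : t ≤ 2 := by
    have : n ≤ ∑ j, d j + s + 2 := hn
    omega
  have g0 : Good F (perp S) (2 ^ t) := good_small hF ht.symm ht2 fun u _ hu0 => wide hFi hu0
  -- regular directions
  have g1 : ∀ m : ℕ, m ≤ s → Good F (perp ((⋃ i, (dirs (L i) : Set _)) ∪
      {w | ∃ i : Fin s, i.1 < s - m ∧ e i = w})) (2 ^ (t + m)) := by
    intro m
    induction m with
    | zero =>
      intro _
      refine g0.mono_sub ?_
      intro u hu w hw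
      rcases hw with hw | ⟨i, rfl⟩
      · exact hu w (Or.inl hw)
      · exact hu _ (Or.inr ⟨i, by have := i.2; omega, rfl⟩)
    | succ m ih =>
      intro hm
      have hlt : s - (m + 1) < s := by omega
      set j : Fin s := ⟨s - (m + 1), hlt⟩ with hj
      have g := ih (by omega)
      refine (Good.step hF (e := e j) ?_ ?_ g).congr_right (by rw [← pow_succ]; rfl)
      · intro u hu hu0 w hw
        rcases hw with hw | ⟨i, hi, rfl⟩
        · exact hu w (Or.inl hw)
        · rcases Nat.lt_or_ge i.1 (s - (m + 1)) with h | h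
          · exact hu _ (Or.inr ⟨i, h, rfl⟩)
          · have : i = j := by
              apply Fin.ext
              rw [hj]
              simp only
              omega
            rw [this]
            exact hu0
      · intro x hx u hu v hv hux hvx
        have conv : {w | ∃ i : Fin s, i < j ∧ e i = w} =
            {w | ∃ i : Fin s, i.1 < s - (m + 1) ∧ e i = w} := rfl
        exact hreg j x u v ⟨hx, hux⟩ ⟨hx, hvx⟩ hu hv
  -- summands
  have hFne : F.Nonempty := hFi.mono interior_subset
  have gL : ∀ i, Good (L i) (dirs (L i)) (2 ^ d i) := by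
    intro i
    refine good_small (hsum i).2.1 rfl (hd i) ?_
    intro u hu hu0
    by_contra hcon
    push Not at hcon
    apply hu0
    have h2 : ∀ w ∈ dirs (L i), (inner ℝ u w : ℝ) = 0 := by
      intro w hw
      induction hw using Submodule.span_induction with
      | mem x hx =>
        obtain ⟨a, ha, b, hb, rfl⟩ := hx
        rw [inner_sub_right, hcon a ha b hb, sub_self]
      | zero => exact inner_zero_right u
      | add x y _ _ hx hy => rw [inner_add_right, hx, hy, add_zero]
      | smul c x _ hx => rw [real_inner_smul_right, hx, mul_zero]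
    exact inner_self_eq_zero.mp (h2 u hu)
  have g2 : ∀ m : ℕ, m ≤ r → Good F (perp {w | ∃ i : Fin r, i.1 < r - m ∧ w ∈ dirs (L i)})
      (2 ^ ((∑ i : Fin r, if r - m ≤ i.1 then d i else 0) + (t + s))) := by
    intro m
    induction m with
    | zero =>
      intro _
      have h0 : (∑ i : Fin r, if r - 0 ≤ i.1 then d i else 0) = 0 := by
        apply Finset.sum_eq_zero
        intro i _
        rw [if_neg (by have := i.2; omega)]
      rw [h0, zero_add]
      refine (g1 s le_rfl).mono_sub ?_
      intro u hu w hw
      rcases hw with hw | ⟨i, hi, rfl⟩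
      · obtain ⟨i, hi⟩ := mem_iUnion.mp hw
        exact hu w ⟨i, by have := i.2; omega, hi⟩
      · omega
    | succ m ih =>
      intro hm
      have hlt : r - (m + 1) < r := by omega
      set j : Fin r := ⟨r - (m + 1), hlt⟩ with hj
      have g := ih (by omega)
      obtain ⟨hKc, hLc, hKL⟩ := hsum j
      have hcount : 2 ^ d j * 2 ^ ((∑ i : Fin r, if r - m ≤ i.1 then d i else 0) + (t + s)) =
          2 ^ ((∑ i : Fin r, if r - (m + 1) ≤ i.1 then d i else 0) + (t + s)) := by
        rw [← pow_add]
        congr 1
        have : (∑ i : Fin r, if r - (m + 1) ≤ i.1 then d i else 0) =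
            (∑ i : Fin r, if r - m ≤ i.1 then d i else 0) + d j := by
          have h3 : ∀ i : Fin r, (if r - (m + 1) ≤ i.1 then d i else 0) =
              (if r - m ≤ i.1 then d i else 0) + (if i = j then d i else 0) := by
            intro i
            have hij : i = j ↔ i.1 = r - (m + 1) := by
              rw [hj, Fin.ext_iff]
            rcases Nat.lt_trichotomy i.1 (r - (m + 1)) with h | h | h
            · rw [if_neg (by omega), if_neg (by omega), if_neg (by rw [hij]; omega)]
            · rw [if_pos (by omega), if_neg (by omega), if_pos (by rw [hij]; omega), zero_add]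
            · rw [if_pos (by omega), if_pos (by omega), if_neg (by rw [hij]; omega), add_zero]
          rw [Finset.sum_congr rfl fun i _ => h3 i, Finset.sum_add_distrib, Finset.sum_ite_eq']
          simp
        omega
      refine (Good.add (W := dirs (L j)) hKc (sum_eq hKL) ?_ (gL j) ?_ g).congr_right hcount
      · intro a ha b hb
        exact Submodule.subset_span ⟨a, ha, b, hb, rfl⟩
      · intro u hu hu0 w hw
        obtain ⟨i, hi, hw⟩ := hw
        rcases Nat.lt_or_ge i.1 (r - (m + 1)) with h | h
        · exact hu w ⟨i, h, hw⟩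
        · have : i = j := by
            apply Fin.ext
            rw [hj]
            simp only
            omega
          rw [this] at hw
          exact hu0 w hw
  have g3 := g2 r le_rfl
  have h4 : (∑ i : Fin r, if r - r ≤ i.1 then d i else 0) + (t + s) = n := by
    have : (∑ i : Fin r, if r - r ≤ i.1 then d i else 0) = ∑ i, d i := by
      apply Finset.sum_congr rfl
      intro i _
      rw [if_pos (by omega)]
    rw [this]
    omega
  rw [h4] at g3
  refine Good.parts hF hFi (g3.mono_sub ?_)
  intro u _ w hw
  obtain ⟨i, hi, -⟩ := hw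
  omega

end Pool.Agent.H11.SWS
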