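import Pool.Agent.H11.SWS.Core

/-!
# Four parts for two-dimensional spaces of directions (helper11)
-/

set_option autoImplicit false

open Set
open scoped Pointwise

namespace Pool.Agent.H11.SWS

variable {E : Type*} [NormedAddCommGroup E] [InnerProductSpace ℝ E]

theorem Ant.swap {F : Set E} {u x y : E} (h : Ant F u x y) : Ant F (-u) y x :=
  ⟨h.2, by rw [neg_neg]; exact h.1⟩

/-- cutting along two level sets -/
theorem good_quarters {F : Set E} (hF : IsCompact F) {U : Submodule ℝ E} {f g : E → ℝ}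
    (hf : Continuous f) (hg : Continuous g) (s t : ℝ)
    (h : ∀ x ∈ F, ∀ y ∈ F, ((f x ≤ s ∧ f y ≤ s) ∨ (s ≤ f x ∧ s ≤ f y)) →
      ((g x ≤ t ∧ g y ≤ t) ∨ (t ≤ g x ∧ t ≤ g y)) → ∀ u ∈ U, u ≠ 0 → ¬ Ant F u x y) :
    Good F U 4 := by
  refine ⟨Bool × Bool, inferInstance, fun i =>
    F ∩ ((if i.1 then {x | f x ≤ s} else {x | s ≤ f x}) ∩
      (if i.2 then {x | g x ≤ t} else {x | t ≤ g x})), by simp, ?_, ?_, ?_⟩
  · rintro ⟨i, j⟩
    apply hF.inter_right
    apply IsClosed.inter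
    · cases i
      · exact isClosed_le continuous_const hf
      · exact isClosed_le hf continuous_const
    · cases j
      · exact isClosed_le continuous_const hg
      · exact isClosed_le hg continuous_const
  · ext x
    constructor
    · intro hx
      rcases le_total (f x) s with h1 | h1 <;> rcases le_total (g x) t with h2 | h2
      · exact mem_iUnion.mpr ⟨(true, true), hx, h1, h2⟩
      · exact mem_iUnion.mpr ⟨(true, false), hx, h1, h2⟩
      · exact mem_iUnion.mpr ⟨(false, true), hx, h1, h2⟩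
      · exact mem_iUnion.mpr ⟨(false, false), hx, h1, h2⟩
    · intro hx
      obtain ⟨i, hi⟩ := mem_iUnion.mp hx
      exact hi.1
  · rintro ⟨i, j⟩ x ⟨hx, hxi, hxj⟩ y ⟨hy, hyi, hyj⟩ u hu hu0
    refine h x hx y hy ?_ ?_ u hu hu0
    · cases i
      · exact Or.inr ⟨hxi, hyi⟩
      · exact Or.inl ⟨hxi, hyi⟩
    · cases j
      · exact Or.inr ⟨hxj, hyj⟩
      · exact Or.inl ⟨hxj, hyj⟩

/-- `p, q` are dual to the chords `a - b`, `c - d` of `F`, and `F` has width one in both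
directions. -/
structure Frame (F : Set E) (U : Submodule ℝ E) (p q a b c d : E) : Prop where
  ha : a ∈ F
  hb : b ∈ F
  hc : c ∈ F
  hd : d ∈ F
  dual : ∀ u ∈ U, ∀ z : E, (inner ℝ u z : ℝ) =
    inner ℝ u (a - b) * inner ℝ p z + inner ℝ u (c - d) * inner ℝ q z
  p1 : (inner ℝ p (a - b) : ℝ) = 1
  p2 : (inner ℝ p (c - d) : ℝ) = 0
  q1 : (inner ℝ q (a - b) : ℝ) = 0
  q2 : (inner ℝ q (c - d) : ℝ) = 1
  pb : ∀ x ∈ F, ∀ y ∈ F, (inner ℝ p (x - y) : ℝ) ≤ 1
  qb : ∀ x ∈ F, ∀ y ∈ F, (inner ℝ q (x - y) : ℝ) ≤ 1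

variable {F : Set E} {U : Submodule ℝ E} {p q a b c d : E}

theorem Frame.neg (h : Frame F U p q a b c d) : Frame F U (-p) (-q) b a d c where
  ha := h.hb
  hb := h.ha
  hc := h.hd
  hd := h.hc
  dual := fun u hu z => by
    rw [h.dual u hu z]
    simp only [inner_sub_right, inner_neg_left]
    ring
  p1 := by
    have := h.p1
    simp only [inner_sub_right, inner_neg_left] at this ⊢
    linarith
  p2 := by
    have := h.p2
    simp only [inner_sub_right, inner_neg_left] at this ⊢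
    linarith
  q1 := by
    have := h.q1
    simp only [inner_sub_right, inner_neg_left] at this ⊢
    linarith
  q2 := by
    have := h.q2
    simp only [inner_sub_right, inner_neg_left] at this ⊢
    linarith
  pb := fun x hx y hy => by
    have := h.pb y hy x hx
    simp only [inner_sub_right, inner_neg_left] at this ⊢
    linarith
  qb := fun x hx y hy => by
    have := h.qb y hy x hx
    simp only [inner_sub_right, inner_neg_left] at this ⊢
    linarith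

theorem Frame.flip (h : Frame F U p q a b c d) : Frame F U p (-q) a b d c where
  ha := h.ha
  hb := h.hb
  hc := h.hd
  hd := h.hc
  dual := fun u hu z => by
    rw [h.dual u hu z]
    simp only [inner_sub_right, inner_neg_left]
    ring
  p1 := h.p1
  p2 := by
    have := h.p2
    simp only [inner_sub_right] at this ⊢
    linarith
  q1 := by
    have := h.q1
    simp only [inner_sub_right, inner_neg_left] at this ⊢
    linarith
  q2 := by
    have := h.q2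
    simp only [inner_sub_right, inner_neg_left] at this ⊢
    linarith
  pb := h.pb
  qb := fun x hx y hy => by
    have := h.qb y hy x hx
    simp only [inner_sub_right, inner_neg_left] at this ⊢
    linarith

/-- what an antipodal pair satisfies -/
theorem Frame.ant (h : Frame F U p q a b c d) {u x y : E} (hu : u ∈ U) (hu0 : u ≠ 0)
    (hant : Ant F u x y) : ∃ α β N : ℝ, N = α * inner ℝ p (x - y) + β * inner ℝ q (x - y) ∧
      α ≤ N ∧ -α ≤ N ∧ β ≤ N ∧ -β ≤ N ∧ 0 < N ∧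
      ∀ s ∈ F, ∀ t ∈ F, α * inner ℝ p (s - t) + β * inner ℝ q (s - t) ≤ N := by
  have hst : ∀ s ∈ F, ∀ t ∈ F, (inner ℝ u (s - t) : ℝ) ≤ inner ℝ u (x - y) := by
    intro s hs t ht
    have h1 := hant.1 s hs
    have h2 := hant.2 t ht
    simp only [inner_neg_left] at h2
    rw [inner_sub_right, inner_sub_right]
    linarith
  have e := h.dual u hu
  refine ⟨inner ℝ u (a - b), inner ℝ u (c - d), inner ℝ u (x - y), e _, hst a h.ha b h.hb, ?_,
    hst c h.hc d h.hd, ?_, ?_, ?_⟩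
  · have := hst b h.hb a h.ha
    simp only [inner_sub_right] at this ⊢
    linarith
  · have := hst d h.hd c h.hc
    simp only [inner_sub_right] at this ⊢
    linarith
  · by_contra hcon
    push Not at hcon
    have h1 := hst a h.ha b h.hb
    have h2 := hst b h.hb a h.ha
    have h3 := hst c h.hc d h.hd
    have h4 := hst d h.hd c h.hc
    have e1 : (inner ℝ u (b - a) : ℝ) = -inner ℝ u (a - b) := by
      simp only [inner_sub_right]
      ring
    have e2 : (inner ℝ u (d - c) : ℝ) = -inner ℝ u (c - d) := by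
      simp only [inner_sub_right]
      ring
    have h5 : (inner ℝ u (a - b) : ℝ) = 0 := by linarith
    have h6 : (inner ℝ u (c - d) : ℝ) = 0 := by linarith
    have h7 := e u
    rw [h5, h6] at h7
    simp at h7
    exact hu0 h7
  · intro s hs t ht
    rw [← e]
    exact hst s hs t ht

theorem key_pp {α β z₁ z₂ N : ℝ} (hN : N = α * z₁ + β * z₂) (h1 : α ≤ N) (h2 : β ≤ N)
    (hz1 : 0 ≤ z₁) (hz2 : 0 ≤ z₂) (hN0 : 0 < N) :
    1 ≤ z₁ + z₂ ∧ (z₁ + z₂ ≤ 1 → 0 < z₁ → 0 < z₂ → α = N ∧ β = N) := by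
  have h3 : 0 ≤ (N - α) * z₁ := mul_nonneg (by linarith) hz1
  have h4 : 0 ≤ (N - β) * z₂ := mul_nonneg (by linarith) hz2
  have h5 : 1 ≤ z₁ + z₂ := by
    by_contra hcon
    push Not at hcon
    nlinarith
  refine ⟨h5, fun h6 h7 h8 => ?_⟩
  have h9 : z₁ + z₂ = 1 := le_antisymm h6 h5
  have h10 : (N - α) * z₁ + (N - β) * z₂ = 0 := by
    have : (N - α) * z₁ + (N - β) * z₂ = N * (z₁ + z₂) - (α * z₁ + β * z₂) := by ring
    rw [this, h9, ← hN]
    ring
  have h11 : (N - α) * z₁ = 0 := by linarith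
  have h12 : (N - β) * z₂ = 0 := by linarith
  rcases mul_eq_zero.mp h11 with h | h
  · rcases mul_eq_zero.mp h12 with h' | h'
    · exact ⟨by linarith, by linarith⟩
    · exact absurd h' h8.ne'
  · exact absurd h h7.ne'

theorem key_sw {A B z₁ z₂ N δ η ζ₁ ζ₂ : ℝ} (hN : N = A * z₁ + B * z₂) (hz1 : 0 ≤ z₁)
    (hz2 : 0 ≤ z₂) (c1 : z₁ ≤ 1 / 2 + δ) (c2 : z₂ ≤ 1 / 2 + δ) (hAN : A ≤ N) (hBN : B ≤ N)
    (hN0 : 0 < N) (hδ0 : 0 < δ) (hδ1 : δ < 1 / 4) (hδ2 : 4 * δ < η) (d9 : ζ₁ + ζ₂ = 1 + η)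
    (h1 : ζ₁ ≤ 1) (h2 : ζ₂ ≤ 1) (d8 : A * ζ₁ + B * ζ₂ ≤ N) : False := by
  have aux : ∀ A B z₁ z₂ : ℝ, N = A * z₁ + B * z₂ → 0 ≤ z₁ → 0 ≤ z₂ → z₂ ≤ 1 / 2 + δ → B ≤ N →
      0 ≤ A := by
    intro A B z₁ z₂ hN hz1 hz2 c2 hBN
    by_contra hcon
    push Not at hcon
    have d1 : A * z₁ ≤ 0 := mul_nonpos_of_nonpos_of_nonneg hcon.le hz1
    have d3 : 0 < B := by
      by_contra h8
      push Not at h8
      have := mul_nonpos_of_nonpos_of_nonneg h8 hz2
      linarith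
    have d4 : B * z₂ ≤ B * (1 / 2 + δ) := mul_le_mul_of_nonneg_left c2 d3.le
    have d5 : B * (1 / 2 + δ) < B * 1 := mul_lt_mul_of_pos_left (by linarith) d3
    linarith
  have hA0 : 0 ≤ A := aux A B z₁ z₂ hN hz1 hz2 c2 hBN
  have hB0 : 0 ≤ B := aux B A z₂ z₁ (by rw [hN]; ring) hz2 hz1 c1 hAN
  have d5 : N ≤ (A + B) * (1 / 2 + δ) := by
    have d6 : A * z₁ ≤ A * (1 / 2 + δ) := mul_le_mul_of_nonneg_left c1 hA0
    have d7 : B * z₂ ≤ B * (1 / 2 + δ) := mul_le_mul_of_nonneg_left c2 hB0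
    linarith
  have fin : ∀ A B ζ₁ ζ₂ : ℝ, 0 ≤ B → B ≤ A → A ≤ N → N ≤ (A + B) * (1 / 2 + δ) →
      ζ₁ + ζ₂ = 1 + η → ζ₂ ≤ 1 → A * ζ₁ + B * ζ₂ ≤ N → False := by
    intro A B ζ₁ ζ₂ hB0 hAB hAN d5 d9 h2 d8
    have hA1 : 0 < A := by
      rcases hAB.lt_or_eq with h | h
      · linarith
      · rcases hB0.lt_or_eq with h' | h'
        · linarith
        · rw [← h, ← h'] at d5
          linarith
    have e : A * ζ₁ + B * ζ₂ = A * (1 + η) - (A - B) * ζ₂ := by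
      rw [← d9]
      ring
    have d11 : (A - B) * ζ₂ ≤ (A - B) * 1 := mul_le_mul_of_nonneg_left h2 (by linarith)
    have d12 : B + A * η ≤ N := by linarith
    have d13 : A * η ≤ 2 * δ * (A + B) := by linarith
    have d14 : 2 * δ * (A + B) ≤ 2 * δ * (A + A) := by
      apply mul_le_mul_of_nonneg_left _ (by linarith)
      linarith
    have d15 : 0 < A * (η - 4 * δ) := mul_pos hA1 (by linarith)
    linarith
  rcases le_total B A with hAB | hAB
  · exact fin A B ζ₁ ζ₂ hB0 hAB hAN d5 d9 h2 d8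
  · exact fin B A ζ₂ ζ₁ hA0 hAB hBN (by linarith) (by linarith) h1 (by linarith)

/-- both diagonal widths are larger than one -/
theorem Frame.good_one (hF : IsCompact F) (h : Frame F U p q a b c d)
    (hp : ∃ s ∈ F, ∃ t ∈ F, 1 < (inner ℝ p (s - t) : ℝ) + inner ℝ q (s - t))
    (hm : ∃ s ∈ F, ∃ t ∈ F, 1 < (inner ℝ p (s - t) : ℝ) - inner ℝ q (s - t)) : Good F U 4 := by
  obtain ⟨s₁, hs₁, t₁, ht₁, hp⟩ := hp
  obtain ⟨s₂, hs₂, t₂, ht₂, hm⟩ := hm
  have hX0 : ∀ x ∈ F, 0 ≤ (inner ℝ p (x - b) : ℝ) := by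
    intro x hx
    have h1 := h.pb a h.ha x hx
    have h2 := h.p1
    simp only [inner_sub_right] at h1 h2 ⊢
    linarith
  have hY0 : ∀ x ∈ F, 0 ≤ (inner ℝ q (x - d) : ℝ) := by
    intro x hx
    have h1 := h.qb c h.hc x hx
    have h2 := h.q2
    simp only [inner_sub_right] at h1 h2 ⊢
    linarith
  apply good_quarters hF (f := fun x => inner ℝ p (x - b)) (g := fun x => inner ℝ q (x - d))
    (by fun_prop) (by fun_prop) (1 / 2) (1 / 2)
  have main : ∀ x ∈ F, ∀ y ∈ F, (((inner ℝ p (x - b) : ℝ) ≤ 1 / 2 ∧ (inner ℝ p (y - b) : ℝ) ≤ 1 / 2)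
      ∨ (1 / 2 ≤ (inner ℝ p (x - b) : ℝ) ∧ 1 / 2 ≤ (inner ℝ p (y - b) : ℝ))) →
      (((inner ℝ q (x - d) : ℝ) ≤ 1 / 2 ∧ (inner ℝ q (y - d) : ℝ) ≤ 1 / 2) ∨
      (1 / 2 ≤ (inner ℝ q (x - d) : ℝ) ∧ 1 / 2 ≤ (inner ℝ q (y - d) : ℝ))) →
      ∀ u ∈ U, u ≠ 0 → 0 ≤ (inner ℝ p (x - y) : ℝ) → ¬ Ant F u x y := by
    intro x hx y hy h1 h2 u hu hu0 hz hant
    obtain ⟨α, β, N, hN, n1, n2, n3, n4, hN0, hst⟩ := h.ant hu hu0 hant
    have eX : (inner ℝ p (x - y) : ℝ) = inner ℝ p (x - b) - inner ℝ p (y - b) := by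
      simp only [inner_sub_right]
      ring
    have eY : (inner ℝ q (x - y) : ℝ) = inner ℝ q (x - d) - inner ℝ q (y - d) := by
      simp only [inner_sub_right]
      ring
    have x0 := hX0 x hx
    have y0 := hX0 y hy
    have x1 := hY0 x hx
    have y1 := hY0 y hy
    have x2 := h.pb x hx b h.hb
    have y2 := h.pb y hy b h.hb
    have x3 := h.qb x hx d h.hd
    have y3 := h.qb y hy d h.hd
    have b1 : (inner ℝ p (x - y) : ℝ) ≤ 1 / 2 := by
      rcases h1 with h1 | h1 <;> linarith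
    have b2 : (inner ℝ q (x - y) : ℝ) ≤ 1 / 2 := by
      rcases h2 with h2 | h2 <;> linarith
    have b3 : -(1 / 2) ≤ (inner ℝ q (x - y) : ℝ) := by
      rcases h2 with h2 | h2 <;> linarith
    rcases le_total 0 (inner ℝ q (x - y) : ℝ) with hz2 | hz2
    · obtain ⟨k1, k2⟩ := key_pp hN n1 n3 hz hz2 hN0
      obtain ⟨k3, k4⟩ := k2 (by linarith) (by linarith) (by linarith)
      have := hst s₁ hs₁ t₁ ht₁
      rw [k3, k4] at this
      nlinarith
    · obtain ⟨k1, k2⟩ := key_pp (α := α) (β := -β) (z₁ := inner ℝ p (x - y))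
        (z₂ := -inner ℝ q (x - y)) (N := N) (by rw [hN]; ring) n1 n4 hz (by linarith) hN0
      obtain ⟨k3, k4⟩ := k2 (by linarith) (by linarith) (by linarith)
      have := hst s₂ hs₂ t₂ ht₂
      have k5 : β = -N := by linarith
      rw [k3, k5] at this
      nlinarith
  intro x hx y hy h1 h2 u hu hu0 hant
  rcases le_total 0 (inner ℝ p (x - y) : ℝ) with hz | hz
  · exact main x hx y hy h1 h2 u hu hu0 hz hant
  · have e : (inner ℝ p (y - x) : ℝ) = -inner ℝ p (x - y) := by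
      simp only [inner_sub_right]
      ring
    refine main y hy x hx ?_ ?_ (-u) (U.neg_mem hu) (neg_ne_zero.mpr hu0) (by linarith) hant.swap
    · rcases h1 with h1 | h1
      · exact Or.inl ⟨h1.2, h1.1⟩
      · exact Or.inr ⟨h1.2, h1.1⟩
    · rcases h2 with h2 | h2
      · exact Or.inl ⟨h2.2, h2.1⟩
      · exact Or.inr ⟨h2.2, h2.1⟩

/-- both diagonal widths are at most one: a parallelogram -/
theorem Frame.good_three (hF : IsCompact F) (h : Frame F U p q a b c d)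
    (hp : ∀ s ∈ F, ∀ t ∈ F, (inner ℝ p (s - t) : ℝ) + inner ℝ q (s - t) ≤ 1)
    (hm : ∀ s ∈ F, ∀ t ∈ F, (inner ℝ p (s - t) : ℝ) - inner ℝ q (s - t) ≤ 1) : Good F U 4 := by
  have hFne : F.Nonempty := ⟨a, h.ha⟩
  have hfc : Continuous (fun x : E => (inner ℝ p x : ℝ) + inner ℝ q x) := by fun_prop
  have hgc : Continuous (fun x : E => (inner ℝ p x : ℝ) - inner ℝ q x) := by fun_prop
  obtain ⟨f₀, hf₀, hf⟩ := hF.exists_isMinOn hFne hfc.continuousOn
  obtain ⟨g₀, hg₀, hg⟩ := hF.exists_isMinOn hFne hgc.continuousOn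
  rw [isMinOn_iff] at hf hg
  apply good_quarters hF hfc hgc ((inner ℝ p f₀ : ℝ) + inner ℝ q f₀ + 1 / 2)
    ((inner ℝ p g₀ : ℝ) - inner ℝ q g₀ + 1 / 2)
  intro x hx y hy h1 h2 u hu hu0 hant
  obtain ⟨α, β, N, hN, n1, n2, n3, n4, hN0, hst⟩ := h.ant hu hu0 hant
  have fx := hf x hx
  have fy := hf y hy
  have gx := hg x hx
  have gy := hg y hy
  have fx' := hp x hx f₀ hf₀
  have fy' := hp y hy f₀ hf₀
  have gx' := hm x hx g₀ hg₀
  have gy' := hm y hy g₀ hg₀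
  simp only [inner_sub_right] at fx' fy' gx' gy' hN
  set px : ℝ := inner ℝ p x
  set py : ℝ := inner ℝ p y
  set qx : ℝ := inner ℝ q x
  set qy : ℝ := inner ℝ q y
  set A : ℝ := (px - py) + (qx - qy) with hA
  set B : ℝ := (px - py) - (qx - qy) with hB
  have a1 : A ≤ 1 / 2 := by rcases h1 with h1 | h1 <;> linarith
  have a2 : -(1 / 2) ≤ A := by rcases h1 with h1 | h1 <;> linarith
  have b1 : B ≤ 1 / 2 := by rcases h2 with h2 | h2 <;> linarith
  have b2 : -(1 / 2) ≤ B := by rcases h2 with h2 | h2 <;> linarith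
  have hN2 : N = (α + β) / 2 * A + (α - β) / 2 * B := by
    rw [hN, hA, hB]
    ring
  have k1 : (α + β) / 2 * A ≤ |(α + β) / 2| * (1 / 2) := by
    calc (α + β) / 2 * A ≤ |(α + β) / 2 * A| := le_abs_self _
      _ = |(α + β) / 2| * |A| := abs_mul _ _
      _ ≤ |(α + β) / 2| * (1 / 2) := by
        gcongr
        exact abs_le.mpr ⟨by linarith, a1⟩
  have k2 : (α - β) / 2 * B ≤ |(α - β) / 2| * (1 / 2) := by
    calc (α - β) / 2 * B ≤ |(α - β) / 2 * B| := le_abs_self _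
      _ = |(α - β) / 2| * |B| := abs_mul _ _
      _ ≤ |(α - β) / 2| * (1 / 2) := by
        gcongr
        exact abs_le.mpr ⟨by linarith, b1⟩
  have k3 : |(α + β) / 2| + |(α - β) / 2| ≤ N := by
    rcases abs_cases ((α + β) / 2) with ⟨e1, -⟩ | ⟨e1, -⟩ <;>
    rcases abs_cases ((α - β) / 2) with ⟨e2, -⟩ | ⟨e2, -⟩ <;> rw [e1, e2] <;> linarith
  nlinarith

/-- one diagonal width is one -/
theorem Frame.good_two (hF : IsCompact F) (h : Frame F U p q a b c d)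
    (hp : ∀ s ∈ F, ∀ t ∈ F, (inner ℝ p (s - t) : ℝ) + inner ℝ q (s - t) ≤ 1)
    (hm : ∃ s ∈ F, ∃ t ∈ F, 1 < (inner ℝ p (s - t) : ℝ) - inner ℝ q (s - t))
    (ha : ∀ x ∈ F, 1 / 2 ≤ (inner ℝ p (x - b) : ℝ) + inner ℝ q (x - d)) : Good F U 4 := by
  obtain ⟨s₂, hs₂, t₂, ht₂, hm⟩ := hm
  have hX0 : ∀ x ∈ F, 0 ≤ (inner ℝ p (x - b) : ℝ) := by
    intro x hx
    have h1 := h.pb a h.ha x hx
    have h2 := h.p1
    simp only [inner_sub_right] at h1 h2 ⊢
    linarith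
  have hY0 : ∀ x ∈ F, 0 ≤ (inner ℝ q (x - d) : ℝ) := by
    intro x hx
    have h1 := h.qb c h.hc x hx
    have h2 := h.q2
    simp only [inner_sub_right] at h1 h2 ⊢
    linarith
  have hFne : F.Nonempty := ⟨a, h.ha⟩
  have hfc : Continuous (fun x : E => (inner ℝ p (x - b) : ℝ) + inner ℝ q (x - d)) := by fun_prop
  obtain ⟨f₀, hf₀, hf⟩ := hF.exists_isMinOn hFne hfc.continuousOn
  rw [isMinOn_iff] at hf
  set a₀ : ℝ := (inner ℝ p (f₀ - b) : ℝ) + inner ℝ q (f₀ - d) with ha₀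
  set η : ℝ := (inner ℝ p (s₂ - t₂) : ℝ) - inner ℝ q (s₂ - t₂) - 1 with hη
  have hη0 : 0 < η := by rw [hη]; linarith
  obtain ⟨δ, hδ0, hδ1, hδ2, hδ3⟩ : ∃ δ : ℝ, 0 < δ ∧ δ < 1 / 4 ∧ 4 * δ < η ∧ 1 / 2 + δ ≠ a₀ := by
    set μ : ℝ := min (1 / 8) (η / 8) with hμ
    have hμ0 : 0 < μ := by rw [hμ]; positivity
    have hμ1 : μ ≤ 1 / 8 := min_le_left _ _
    have hμ2 : μ ≤ η / 8 := min_le_right _ _
    by_cases h0 : 1 / 2 + μ = a₀
    · refine ⟨μ / 2, by linarith, by linarith, by linarith, ?_⟩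
      rw [← h0]
      intro h1
      linarith
    · exact ⟨μ, hμ0, by linarith, by linarith, h0⟩
  apply good_quarters hF (f := fun x => inner ℝ p (x - b)) (g := fun x => inner ℝ q (x - d))
    (by fun_prop) (by fun_prop) (1 / 2 + δ) (1 / 2 + δ)
  have main : ∀ x ∈ F, ∀ y ∈ F,
      (((inner ℝ p (x - b) : ℝ) ≤ 1 / 2 + δ ∧ (inner ℝ p (y - b) : ℝ) ≤ 1 / 2 + δ)
      ∨ (1 / 2 + δ ≤ (inner ℝ p (x - b) : ℝ) ∧ 1 / 2 + δ ≤ (inner ℝ p (y - b) : ℝ))) →
      (((inner ℝ q (x - d) : ℝ) ≤ 1 / 2 + δ ∧ (inner ℝ q (y - d) : ℝ) ≤ 1 / 2 + δ) ∨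
      (1 / 2 + δ ≤ (inner ℝ q (x - d) : ℝ) ∧ 1 / 2 + δ ≤ (inner ℝ q (y - d) : ℝ))) →
      ∀ u ∈ U, u ≠ 0 → 0 ≤ (inner ℝ p (x - y) : ℝ) → ¬ Ant F u x y := by
    intro x hx y hy h1 h2 u hu hu0 hz hant
    obtain ⟨α, β, N, hN, n1, n2, n3, n4, hN0, hst⟩ := h.ant hu hu0 hant
    have eX : (inner ℝ p (x - y) : ℝ) = inner ℝ p (x - b) - inner ℝ p (y - b) := by
      simp only [inner_sub_right]
      ring
    have eY : (inner ℝ q (x - y) : ℝ) = inner ℝ q (x - d) - inner ℝ q (y - d) := by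
      simp only [inner_sub_right]
      ring
    have x0 := hX0 x hx
    have y0 := hX0 y hy
    have x1 := hY0 x hx
    have y1 := hY0 y hy
    have x2 := h.pb x hx b h.hb
    have y2 := h.pb y hy b h.hb
    have x3 := h.qb x hx d h.hd
    have y3 := h.qb y hy d h.hd
    have fx := hf x hx
    have fy := hf y hy
    have gx : (inner ℝ p (x - b) : ℝ) + inner ℝ q (x - d) ≤ a₀ + 1 := by
      have := hp x hx f₀ hf₀
      rw [ha₀]
      simp only [inner_sub_right] at this ⊢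
      linarith
    have gy : (inner ℝ p (y - b) : ℝ) + inner ℝ q (y - d) ≤ a₀ + 1 := by
      have := hp y hy f₀ hf₀
      rw [ha₀]
      simp only [inner_sub_right] at this ⊢
      linarith
    have ha0' : 1 / 2 ≤ a₀ := ha f₀ hf₀
    have hpq := hst s₂ hs₂ t₂ ht₂
    have hz2p := h.pb s₂ hs₂ t₂ ht₂
    have hz2q := h.qb t₂ ht₂ s₂ hs₂
    have eQ : (inner ℝ q (t₂ - s₂) : ℝ) = -inner ℝ q (s₂ - t₂) := by
      simp only [inner_sub_right]
      ring
    rw [eQ] at hz2q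
    rw [eX] at hz hN
    rw [eY] at hN
    set Xx : ℝ := inner ℝ p (x - b)
    set Xy : ℝ := inner ℝ p (y - b)
    set Yx : ℝ := inner ℝ q (x - d)
    set Yy : ℝ := inner ℝ q (y - d)
    set ζ₁ : ℝ := inner ℝ p (s₂ - t₂)
    set ζ₂ : ℝ := inner ℝ q (s₂ - t₂)
    rcases le_total 0 (Yx - Yy) with hz2 | hz2
    · -- same signs
      obtain ⟨k1, k2⟩ := key_pp hN n1 n3 hz hz2 hN0
      rcases h1 with h1 | h1 <;> rcases h2 with h2 | h2
      · linarith
      · -- NW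
        have e1 : 1 / 2 + δ = a₀ := by linarith
        exact hδ3 e1
      · have e1 : 1 / 2 + δ = a₀ := by linarith
        exact hδ3 e1
      · linarith
    · obtain ⟨k1, k2⟩ := key_pp (α := α) (β := -β) (z₁ := Xx - Xy)
        (z₂ := -(Yx - Yy)) (N := N) (by rw [hN]; ring) n1 n4 hz (by linarith) hN0
      have hfin : α = N → -β = N → False := by
        intro k3 k4
        have k5 : β = -N := by linarith
        rw [k3, k5] at hpq
        have : N * (1 + η) ≤ N := by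
          have e : N * (1 + η) = N * ζ₁ + -N * ζ₂ := by rw [hη]; ring
          rw [e]
          exact hpq
        nlinarith
      rcases h1 with h1 | h1 <;> rcases h2 with h2 | h2
      · -- SW, opposite signs
        exact key_sw (A := α) (B := -β) (z₁ := Xx - Xy) (z₂ := -(Yx - Yy)) (N := N) (δ := δ)
          (η := η) (ζ₁ := ζ₁) (ζ₂ := -ζ₂) (by rw [hN]; ring) hz (by linarith) (by linarith)
          (by linarith) n1 n4 hN0 hδ0 hδ1 hδ2 (by rw [hη]; ring) hz2p hz2q (by linarith)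
      · obtain ⟨k3, k4⟩ := k2 (by linarith) (by linarith) (by linarith)
        exact hfin k3 k4
      · obtain ⟨k3, k4⟩ := k2 (by linarith) (by linarith) (by linarith)
        exact hfin k3 k4
      · linarith
  intro x hx y hy h1 h2 u hu hu0 hant
  rcases le_total 0 (inner ℝ p (x - y) : ℝ) with hz | hz
  · exact main x hx y hy h1 h2 u hu hu0 hz hant
  · have e : (inner ℝ p (y - x) : ℝ) = -inner ℝ p (x - y) := by
      simp only [inner_sub_right]
      ring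
    refine main y hy x hx ?_ ?_ (-u) (U.neg_mem hu) (neg_ne_zero.mpr hu0) (by linarith) hant.swap
    · rcases h1 with h1 | h1
      · exact Or.inl ⟨h1.2, h1.1⟩
      · exact Or.inr ⟨h1.2, h1.1⟩
    · rcases h2 with h2 | h2
      · exact Or.inl ⟨h2.2, h2.1⟩
      · exact Or.inr ⟨h2.2, h2.1⟩

/-- one diagonal width is one, both positions -/
theorem Frame.good_two' (hF : IsCompact F) (h : Frame F U p q a b c d)
    (hp : ∀ s ∈ F, ∀ t ∈ F, (inner ℝ p (s - t) : ℝ) + inner ℝ q (s - t) ≤ 1)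
    (hm : ∃ s ∈ F, ∃ t ∈ F, 1 < (inner ℝ p (s - t) : ℝ) - inner ℝ q (s - t)) : Good F U 4 := by
  by_cases ha : ∀ x ∈ F, 1 / 2 ≤ (inner ℝ p (x - b) : ℝ) + inner ℝ q (x - d)
  · exact h.good_two hF hp hm ha
  · push Not at ha
    obtain ⟨x₀, hx₀, hlt⟩ := ha
    apply h.neg.good_two hF
    · intro s hs t ht
      have := hp t ht s hs
      simp only [inner_sub_right, inner_neg_left] at this ⊢
      linarith
    · obtain ⟨s, hs, t, ht, h1⟩ := hm
      refine ⟨t, ht, s, hs, ?_⟩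
      simp only [inner_sub_right, inner_neg_left] at h1 ⊢
      linarith
    · intro x hx
      have h1 := hp x hx x₀ hx₀
      have h2 := h.p1
      have h3 := h.q2
      simp only [inner_sub_right, inner_neg_left] at h1 h2 h3 hlt ⊢
      linarith

theorem Frame.good (hF : IsCompact F) (h : Frame F U p q a b c d) : Good F U 4 := by
  by_cases hp : ∃ s ∈ F, ∃ t ∈ F, 1 < (inner ℝ p (s - t) : ℝ) + inner ℝ q (s - t)
  · by_cases hm : ∃ s ∈ F, ∃ t ∈ F, 1 < (inner ℝ p (s - t) : ℝ) - inner ℝ q (s - t)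
    · exact h.good_one hF hp hm
    · push Not at hm
      apply h.flip.good_two' hF
      · intro s hs t ht
        have := hm s hs t ht
        simp only [inner_neg_left]
        linarith
      · obtain ⟨s, hs, t, ht, h1⟩ := hp
        refine ⟨s, hs, t, ht, ?_⟩
        simp only [inner_neg_left]
        linarith
  · push Not at hp
    by_cases hm : ∃ s ∈ F, ∃ t ∈ F, 1 < (inner ℝ p (s - t) : ℝ) - inner ℝ q (s - t)
    · exact h.good_two' hF hp hm
    · push Not at hm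
      exact h.good_three hF hp hm

/-- existence of a frame: chords spanning the largest area -/
theorem exists_frame (hF : IsCompact F) {b₁ b₂ : E} (hb₁ : b₁ ∈ U) (hb₂ : b₂ ∈ U)
    (hU : ∀ u ∈ U, ∃ s t : ℝ, u = s • b₁ + t • b₂)
    (hind : ∀ s t : ℝ, s • b₁ + t • b₂ = 0 → s = 0 ∧ t = 0)
    (hw : ∀ u ∈ U, u ≠ 0 → ∃ x ∈ F, ∃ y ∈ F, (inner ℝ u x : ℝ) ≠ inner ℝ u y) :
    ∃ p q a b c d : E, Frame F U p q a b c d := by
  have hb10 : b₁ ≠ 0 := by
    intro h0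
    have := hind 1 0 (by simp [h0])
    exact one_ne_zero this.1
  obtain ⟨x₀, hx₀, y₀, hy₀, hne⟩ := hw b₁ hb₁ hb10
  have hFne : F.Nonempty := ⟨x₀, hx₀⟩
  set Δ : E → E → ℝ := fun z w => inner ℝ b₁ z * inner ℝ b₂ w - inner ℝ b₂ z * inner ℝ b₁ w with hΔ
  have hc : Continuous (fun x : (E × E) × (E × E) => Δ (x.1.1 - x.1.2) (x.2.1 - x.2.2)) := by
    rw [hΔ]
    fun_prop
  have hK : IsCompact ((F ×ˢ F) ×ˢ (F ×ˢ F)) := (hF.prod hF).prod (hF.prod hF)
  obtain ⟨⟨⟨a, b⟩, ⟨c, d⟩⟩, ⟨⟨ha, hb⟩, ⟨hc', hd⟩⟩, hmax⟩ := hK.exists_isMaxOn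
    ((hFne.prod hFne).prod (hFne.prod hFne)) hc.continuousOn
  rw [isMaxOn_iff] at hmax
  simp only at ha hb hc' hd
  have hmax' : ∀ x ∈ F, ∀ y ∈ F, ∀ z ∈ F, ∀ w ∈ F, Δ (x - y) (z - w) ≤ Δ (a - b) (c - d) :=
    fun x hx y hy z hz w hw' => hmax ((x, y), (z, w)) ⟨⟨hx, hy⟩, ⟨hz, hw'⟩⟩
  set M := Δ (a - b) (c - d) with hM
  have hM0 : 0 < M := by
    by_contra hcon
    push Not at hcon
    have hzero : ∀ x ∈ F, ∀ y ∈ F, ∀ z ∈ F, ∀ w ∈ F, Δ (x - y) (z - w) = 0 := by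
      intro x hx y hy z hz w hw'
      have h1 := hmax' x hx y hy z hz w hw'
      have h2 := hmax' y hy x hx z hz w hw'
      have h3 : Δ (y - x) (z - w) = -Δ (x - y) (z - w) := by
        simp only [hΔ, inner_sub_right]
        ring
      linarith
    set u : E := (inner ℝ b₁ (x₀ - y₀) : ℝ) • b₂ - (inner ℝ b₂ (x₀ - y₀) : ℝ) • b₁ with hu
    have huU : u ∈ U := U.sub_mem (U.smul_mem _ hb₂) (U.smul_mem _ hb₁)
    have hu0 : u ≠ 0 := by
      intro h0
      have h1 := hind (-(inner ℝ b₂ (x₀ - y₀) : ℝ)) (inner ℝ b₁ (x₀ - y₀) : ℝ) (by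
        rw [← h0, hu]
        module)
      apply hne
      have := h1.2
      rw [inner_sub_right] at this
      linarith
    obtain ⟨z, hz, w, hw', h2⟩ := hw u huU hu0
    apply h2
    have h3 := hzero x₀ hx₀ y₀ hy₀ z hz w hw'
    simp only [hΔ] at h3
    rw [hu]
    simp only [inner_sub_left, real_inner_smul_left]
    have e1 : (inner ℝ b₂ (z - w) : ℝ) = inner ℝ b₂ z - inner ℝ b₂ w := inner_sub_right _ _ _
    have e2 : (inner ℝ b₁ (z - w) : ℝ) = inner ℝ b₁ z - inner ℝ b₁ w := inner_sub_right _ _ _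
    rw [e1, e2] at h3
    linarith
  set v₁ := a - b with hv₁
  set v₂ := c - d with hv₂
  set p : E := M⁻¹ • ((inner ℝ b₂ v₂ : ℝ) • b₁ - (inner ℝ b₁ v₂ : ℝ) • b₂) with hp
  set q : E := M⁻¹ • ((inner ℝ b₁ v₁ : ℝ) • b₂ - (inner ℝ b₂ v₁ : ℝ) • b₁) with hq
  have hpz : ∀ z : E, (inner ℝ p z : ℝ) = M⁻¹ * Δ z v₂ := by
    intro z
    rw [hp]
    simp only [real_inner_smul_left, inner_sub_left, hΔ]
    ring
  have hqz : ∀ z : E, (inner ℝ q z : ℝ) = M⁻¹ * Δ v₁ z := by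
    intro z
    rw [hq]
    simp only [real_inner_smul_left, inner_sub_left, hΔ]
  have hMi : M⁻¹ * M = 1 := inv_mul_cancel₀ hM0.ne'
  refine ⟨p, q, a, b, c, d, ha, hb, hc', hd, ?_, ?_, ?_, ?_, ?_, ?_, ?_⟩
  · intro u hu z
    obtain ⟨s, t, rfl⟩ := hU u hu
    rw [hpz, hqz]
    have e : ∀ w : E, (inner ℝ (s • b₁ + t • b₂) w : ℝ) = s * inner ℝ b₁ w + t * inner ℝ b₂ w := by
      intro w
      simp only [inner_add_left, real_inner_smul_left]
    rw [← hv₁, ← hv₂, e, e, e]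
    have h5 : (s * inner ℝ b₁ z + t * inner ℝ b₂ z) * M =
        (s * inner ℝ b₁ v₁ + t * inner ℝ b₂ v₁) * Δ z v₂ +
        (s * inner ℝ b₁ v₂ + t * inner ℝ b₂ v₂) * Δ v₁ z := by
      rw [hM]
      simp only [hΔ]
      ring
    calc s * inner ℝ b₁ z + t * inner ℝ b₂ z
        = M⁻¹ * ((s * inner ℝ b₁ z + t * inner ℝ b₂ z) * M) := by
          field_simp
      _ = _ := by
          rw [h5]
          ring
  · rw [← hv₁, hpz, ← hM]
    exact hMi
  · rw [← hv₂, hpz]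
    simp only [hΔ]
    ring
  · rw [← hv₁, hqz]
    simp only [hΔ]
    ring
  · rw [← hv₂, hqz, ← hM]
    exact hMi
  · intro x hx y hy
    rw [hpz, ← hMi]
    exact mul_le_mul_of_nonneg_left (hmax' x hx y hy c hc' d hd) (inv_pos.mpr hM0).le
  · intro x hx y hy
    rw [hqz, ← hMi]
    exact mul_le_mul_of_nonneg_left (hmax' a ha b hb x hx y hy) (inv_pos.mpr hM0).le

/-- two-dimensional spaces of directions -/
theorem good_plane (hF : IsCompact F) {b₁ b₂ : E} (hb₁ : b₁ ∈ U) (hb₂ : b₂ ∈ U)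
    (hU : ∀ u ∈ U, ∃ s t : ℝ, u = s • b₁ + t • b₂)
    (hind : ∀ s t : ℝ, s • b₁ + t • b₂ = 0 → s = 0 ∧ t = 0)
    (hw : ∀ u ∈ U, u ≠ 0 → ∃ x ∈ F, ∃ y ∈ F, (inner ℝ u x : ℝ) ≠ inner ℝ u y) : Good F U 4 := by
  obtain ⟨p, q, a, b, c, d, h⟩ := exists_frame hF hb₁ hb₂ hU hind hw
  exact h.good hF

end Pool.Agent.H11.SWS
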