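import Pool.Agent.H11.SWS.Join

/-!
# Shadow boundaries and sharp points (helper11)
-/

set_option autoImplicit false

open Set
open scoped Pointwise

namespace Pool.Agent.H11.SWS

open Pool.Agent.H11.SWD

variable {E : Type*} [NormedAddCommGroup E] [InnerProductSpace ℝ E] [FiniteDimensional ℝ E]

/-- `S` is covered by `k` compact subsets of `F` without antipodal pairs of `F`. -/
def GoodOn (F S : Set E) (U : Submodule ℝ E) (k : ℕ) : Prop :=
  ∃ (ι : Type) (_ : Fintype ι) (G : ι → Set E), Fintype.card ι = k ∧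
    (∀ i, IsCompact (G i) ∧ G i ⊆ F) ∧ S ⊆ ⋃ i, G i ∧
    ∀ i, ∀ x ∈ G i, ∀ y ∈ G i, ∀ u ∈ U, u ≠ 0 → ¬ Ant F u x y

theorem isCompact_pairs {F : Set E} (hF : IsCompact F) (U : Submodule ℝ E) :
    IsCompact {a : E × E | (a.1 ∈ F ∧ a.2 ∈ F) ∧ ∃ u ∈ U, ‖u‖ = 1 ∧ Ant F u a.1 a.2} := by
  have hS : IsCompact {p : E × E × E | (p.1 ∈ Metric.sphere (0:E) 1 ∧ p.2.1 ∈ F ∧ p.2.2 ∈ F) ∧
      p.1 ∈ U ∧ (∀ z ∈ F, (inner ℝ p.1 z : ℝ) ≤ inner ℝ p.1 p.2.1) ∧
      ∀ z ∈ F, (inner ℝ (-p.1) z : ℝ) ≤ inner ℝ (-p.1) p.2.2} := by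
    have h1 : IsCompact ((Metric.sphere (0:E) 1) ×ˢ (F ×ˢ F)) :=
      (isCompact_sphere _ _).prod (hF.prod hF)
    have h2 : IsClosed {p : E × E × E | p.1 ∈ U} :=
      (Submodule.closed_of_finiteDimensional U).preimage continuous_fst
    have h3 : IsClosed {p : E × E × E | ∀ z ∈ F, (inner ℝ p.1 z : ℝ) ≤ inner ℝ p.1 p.2.1} := by
      have : {p : E × E × E | ∀ z ∈ F, (inner ℝ p.1 z : ℝ) ≤ inner ℝ p.1 p.2.1} =
          ⋂ z ∈ F, {p : E × E × E | (inner ℝ p.1 z : ℝ) ≤ inner ℝ p.1 p.2.1} := by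
        ext p
        simp
      rw [this]
      exact isClosed_biInter fun z _ => isClosed_le (by fun_prop) (by fun_prop)
    have h5 : IsClosed {p : E × E × E | ∀ z ∈ F, (inner ℝ (-p.1) z : ℝ) ≤
        inner ℝ (-p.1) p.2.2} := by
      have : {p : E × E × E | ∀ z ∈ F, (inner ℝ (-p.1) z : ℝ) ≤ inner ℝ (-p.1) p.2.2} =
          ⋂ z ∈ F, {p : E × E × E | (inner ℝ (-p.1) z : ℝ) ≤ inner ℝ (-p.1) p.2.2} := by
        ext p
        simp
      rw [this]
      exact isClosed_biInter fun z _ => isClosed_le (by fun_prop) (by fun_prop)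
    exact h1.inter_right (h2.inter (h3.inter h5))
  have e : {a : E × E | (a.1 ∈ F ∧ a.2 ∈ F) ∧ ∃ u ∈ U, ‖u‖ = 1 ∧ Ant F u a.1 a.2} = Prod.snd ''
      {p : E × E × E | (p.1 ∈ Metric.sphere (0:E) 1 ∧ p.2.1 ∈ F ∧ p.2.2 ∈ F) ∧
      p.1 ∈ U ∧ (∀ z ∈ F, (inner ℝ p.1 z : ℝ) ≤ inner ℝ p.1 p.2.1) ∧
      ∀ z ∈ F, (inner ℝ (-p.1) z : ℝ) ≤ inner ℝ (-p.1) p.2.2} := by
    ext a
    constructor
    · rintro ⟨ha, u, hu, hu1, hant⟩
      exact ⟨(u, a), ⟨⟨by simpa using hu1, ha.1, ha.2⟩, hu, hant.1, hant.2⟩, rfl⟩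
    · rintro ⟨⟨u, a⟩, ⟨⟨h1, h2, h3⟩, h4, h5, h6⟩, rfl⟩
      exact ⟨⟨h2, h3⟩, u, h4, by simpa using h1, h5, h6⟩
  rw [e]
  exact hS.image continuous_snd

omit [FiniteDimensional ℝ E] in
/-- a unit vector can be used -/
theorem Ant.unit {F : Set E} {U : Submodule ℝ E} {u x y : E} (hu : u ∈ U) (hu0 : u ≠ 0)
    (h : Ant F u x y) : ∃ v ∈ U, ‖v‖ = 1 ∧ Ant F v x y := by
  have hn : 0 < ‖u‖ := norm_pos_iff.mpr hu0
  refine ⟨‖u‖⁻¹ • u, U.smul_mem _ hu, ?_, h.1.smul (by positivity), ?_⟩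
  · rw [norm_smul, norm_inv, norm_norm]
    exact inv_mul_cancel₀ hn.ne'
  · have := h.2.smul (c := ‖u‖⁻¹) (by positivity)
    rwa [smul_neg] at this

/-- small closed neighbourhoods are still without antipodal pairs -/
theorem exists_thickening {F : Set E} (hF : IsCompact F) {U : Submodule ℝ E} {G : Set E}
    (hG : IsCompact G) (h : ∀ x ∈ G, ∀ y ∈ G, ∀ u ∈ U, u ≠ 0 → ¬ Ant F u x y) :
    ∃ ε : ℝ, 0 < ε ∧ ∀ x ∈ F, x ∈ Metric.cthickening ε G → ∀ y ∈ F, y ∈ Metric.cthickening ε G →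
      ∀ u ∈ U, u ≠ 0 → ¬ Ant F u x y := by
  have hA := isCompact_pairs hF U
  have hsub : G ×ˢ G ⊆ {a : E × E | (a.1 ∈ F ∧ a.2 ∈ F) ∧ ∃ u ∈ U, ‖u‖ = 1 ∧
      Ant F u a.1 a.2}ᶜ := by
    rintro ⟨x, y⟩ ⟨hx, hy⟩ ⟨-, u, hu, hu1, hant⟩
    have hu0 : u ≠ 0 := by
      rintro rfl
      simp at hu1
    exact h x hx y hy u hu hu0 hant
  obtain ⟨δ, hδ, hδs⟩ := (hG.prod hG).exists_cthickening_subset_open hA.isClosed.isOpen_compl hsub
  refine ⟨δ, hδ, fun x hxF hx y hyF hy u hu hu0 hant => ?_⟩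
  rw [hG.cthickening_eq_biUnion_closedBall hδ.le] at hx hy
  simp only [mem_iUnion, Metric.mem_closedBall, exists_prop] at hx hy
  obtain ⟨g, hg, hxg⟩ := hx
  obtain ⟨g', hg', hyg⟩ := hy
  have h1 : ((x, y) : E × E) ∈ Metric.cthickening δ (G ×ˢ G) := by
    apply Metric.mem_cthickening_of_dist_le (x, y) (g, g') δ (G ×ˢ G) ⟨hg, hg'⟩
    rw [Prod.dist_eq]
    exact max_le hxg hyg
  obtain ⟨v, hv, hv1, hvant⟩ := hant.unit hu hu0
  exact hδs h1 ⟨⟨hxF, hyF⟩, v, hv, hv1, hvant⟩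

/-- the common preparation: thickened parts and the rest -/
theorem GoodOn.prepare {F S : Set E} (hF : IsCompact F) {U : Submodule ℝ E} {k : ℕ}
    (h : GoodOn F S U k) : ∃ (ι : Type) (_ : Fintype ι) (G : ι → Set E) (R : Set E),
      Fintype.card ι = k ∧ (∀ i, IsCompact (G i)) ∧ IsCompact R ∧ R ⊆ F ∧ Disjoint R S ∧
      F = (⋃ i, G i) ∪ R ∧ ∀ i, ∀ x ∈ G i, ∀ y ∈ G i, ∀ u ∈ U, u ≠ 0 → ¬ Ant F u x y := by
  obtain ⟨ι, _, G, h1, h2, h3, h4⟩ := h
  choose ε hε0 hε using fun i => exists_thickening hF (h2 i).1 (h4 i)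
  refine ⟨ι, _, fun i => F ∩ Metric.cthickening (ε i) (G i),
    F \ ⋃ i, Metric.thickening (ε i) (G i), h1, fun i => ?_, ?_, sdiff_subset, ?_, ?_, ?_⟩
  · exact hF.inter_right Metric.isClosed_cthickening
  · exact hF.diff (isOpen_iUnion fun i => Metric.isOpen_thickening)
  · rw [Set.disjoint_left]
    rintro x ⟨-, hx⟩ hxS
    obtain ⟨i, hi⟩ := mem_iUnion.mp (h3 hxS)
    exact hx (mem_iUnion.mpr ⟨i, Metric.self_subset_thickening (hε0 i) _ hi⟩)
  · ext x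
    constructor
    · intro hx
      by_cases h5 : x ∈ ⋃ i, Metric.thickening (ε i) (G i)
      · obtain ⟨i, hi⟩ := mem_iUnion.mp h5
        exact Or.inl (mem_iUnion.mpr ⟨i, hx, Metric.thickening_subset_cthickening _ _ hi⟩)
      · exact Or.inr ⟨hx, h5⟩
    · rintro (hx | hx)
      · obtain ⟨i, hi⟩ := mem_iUnion.mp hx
        exact hi.1
      · exact hx.1
  · rintro i x ⟨hxF, hx⟩ y ⟨hyF, hy⟩ u hu hu0
    exact hε i x hxF hx y hyF hy u hu hu0

/-- the rule for shadow boundaries -/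
theorem good_rim {F S : Set E} (hF : IsCompact F) {U : Submodule ℝ E} {e : E} {k : ℕ}
    (hpos : ∀ u ∈ U, u ≠ 0 → ∃ x ∈ F, ∃ y ∈ F, (inner ℝ u x : ℝ) ≠ inner ℝ u y)
    (hS : ∀ x ∈ F, ∀ u ∈ U, u ≠ 0 → Mx F u x → (inner ℝ u e : ℝ) = 0 → x ∈ S)
    (h : GoodOn F S U k) : Good F U (k + 2) := by
  obtain ⟨ι, _, G, R, h1, h2, hR, hRF, hRS, hcov, h4⟩ := h.prepare hF
  have hT := (isCompact_normals hF U e 0).inter hR
  have hB := (isCompact_normals hF U (-e) 0).inter hR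
  have hdis : Disjoint ({x | x ∈ F ∧ ∃ u ∈ U, ‖u‖ = 1 ∧ 0 ≤ (inner ℝ u e : ℝ) ∧ Mx F u x} ∩ R)
      ({x | x ∈ F ∧ ∃ u ∈ U, ‖u‖ = 1 ∧ 0 ≤ (inner ℝ u (-e) : ℝ) ∧ Mx F u x} ∩ R) := by
    rw [Set.disjoint_left]
    rintro x ⟨⟨hx, u, hu, hu1, hu2, hu3⟩, hxR⟩ ⟨⟨-, v, hv, hv1, hv2, hv3⟩, -⟩
    rw [inner_neg_right] at hv2
    have hxS : x ∉ S := fun h => Set.disjoint_left.mp hRS hxR h
    have hu0 : u ≠ 0 := by
      rintro rfl
      simp at hu1
    have hv0 : v ≠ 0 := by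
      rintro rfl
      simp at hv1
    rcases hu2.lt_or_eq with hu2 | hu2
    · rcases hv2.lt_or_eq with hv2 | hv2
      · set w : E := (-(inner ℝ v e : ℝ)) • u + (inner ℝ u e : ℝ) • v with hw
        have hwU : w ∈ U := U.add_mem (U.smul_mem _ hu) (U.smul_mem _ hv)
        have hwM : Mx F w x := by
          intro z hz
          have e1 := (hu3.smul hv2.le) z hz
          have e2 := (hv3.smul hu2.le) z hz
          rw [hw, inner_add_left, inner_add_left]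
          linarith
        have hwe : (inner ℝ w e : ℝ) = 0 := by
          rw [hw, inner_add_left, real_inner_smul_left, real_inner_smul_left]
          ring
        have hw0 : w ≠ 0 := by
          intro h0
          obtain ⟨a, ha, b, hb, hne⟩ := hpos v hv hv0
          have e1 : ∀ z ∈ F, (inner ℝ v z : ℝ) ≤ inner ℝ v x := fun z hz => hv3 z hz
          have e2 : ∀ z ∈ F, (inner ℝ v x : ℝ) ≤ inner ℝ v z := by
            intro z hz
            have e3 := (hu3.smul hv2.le) z hz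
            have e4 : (-(inner ℝ v e : ℝ)) • u = -((inner ℝ u e : ℝ) • v) := by
              rw [eq_neg_iff_add_eq_zero, ← hw]
              exact h0
            rw [e4, inner_neg_left, inner_neg_left, real_inner_smul_left,
              real_inner_smul_left] at e3
            have e5 : (inner ℝ u e : ℝ) * inner ℝ v x ≤ (inner ℝ u e : ℝ) * inner ℝ v z := by
              linarith
            exact le_of_mul_le_mul_left e5 hu2
          apply hne
          linarith [e1 a ha, e1 b hb, e2 a ha, e2 b hb]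
        exact hxS (hS x hx w hwU hw0 hwM hwe)
      · exact hxS (hS x hx v hv hv0 hv3 (by linarith))
    · exact hxS (hS x hx u hu hu0 hu3 hu2.symm)
  obtain ⟨OT, OB, hOT, hOB, hTO, hBO, hO⟩ := normal_separation hT.isClosed hB.isClosed hdis
  refine ⟨ι ⊕ Bool, inferInstance, fun a => Sum.elim G (fun b : Bool => R ∩
    (if b then OBᶜ else OTᶜ)) a, ?_, ?_, ?_, ?_⟩
  · rw [Fintype.card_sum, h1]
    simp
  · rintro (i | b)
    · exact h2 i
    · cases b
      · exact hR.inter_right hOT.isClosed_compl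
      · exact hR.inter_right hOB.isClosed_compl
  · ext x
    constructor
    · intro hx
      rw [hcov] at hx
      rcases hx with hx | hx
      · obtain ⟨i, hi⟩ := mem_iUnion.mp hx
        exact mem_iUnion.mpr ⟨Sum.inl i, hi⟩
      · by_cases hxO : x ∈ OB
        · refine mem_iUnion.mpr ⟨Sum.inr false, hx, ?_⟩
          simp only [Bool.false_eq_true, if_false]
          exact fun h => Set.disjoint_left.mp hO h hxO
        · exact mem_iUnion.mpr ⟨Sum.inr true, hx, by simpa using hxO⟩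
    · intro hx
      obtain ⟨a, ha⟩ := mem_iUnion.mp hx
      rcases a with i | b
      · rw [hcov]
        exact Or.inl (mem_iUnion.mpr ⟨i, ha⟩)
      · exact hRF ha.1
  · rintro (i | b) x hx y hy u hu hu0 hant
    · exact h4 i x hx y hy u hu hu0 hant
    · obtain ⟨v, hv, hv1, hvant⟩ := hant.unit hu hu0
      obtain ⟨hxR, hxO⟩ := hx
      obtain ⟨hyR, hyO⟩ := hy
      have hnv1 : ‖-v‖ = 1 := by rw [norm_neg, hv1]
      rcases le_total 0 (inner ℝ v e : ℝ) with h5 | h5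
      · have hxT := hTO ⟨⟨hRF hxR, v, hv, hv1, h5, hvant.1⟩, hxR⟩
        have hyB := hBO ⟨⟨hRF hyR, -v, U.neg_mem hv, hnv1, by
          rw [inner_neg_neg]
          exact h5, hvant.2⟩, hyR⟩
        cases b
        · exact hxO hxT
        · exact hyO hyB
      · have hxB := hBO ⟨⟨hRF hxR, v, hv, hv1, by
          rw [inner_neg_right]
          linarith, hvant.1⟩, hxR⟩
        have hyT := hTO ⟨⟨hRF hyR, -v, U.neg_mem hv, hnv1, by
          rw [inner_neg_left]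
          linarith, hvant.2⟩, hyR⟩
        cases b
        · exact hyO hyT
        · exact hxO hxB

/-- the rule for sharp points -/
theorem good_sharp {F S : Set E} (hF : IsCompact F) {U U' : Submodule ℝ E} {e : E} {k m : ℕ}
    (hU' : ∀ u ∈ U, (inner ℝ u e : ℝ) = 0 → u ∈ U')
    (hS : ∀ x ∈ F, ∀ u ∈ U, ∀ v ∈ U, Mx F u x → Mx F v x → 0 < (inner ℝ u e : ℝ) →
      (inner ℝ v e : ℝ) < 0 → x ∈ S)
    (h : GoodOn F S U k) (hm : Good F U' m) : Good F U (m * 2 + k) := by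
  obtain ⟨κ, _, H, m1, m2, m3, m4⟩ := hm
  choose δ hδ0 hδ using fun i => exists_margin hU' (m2 i) (m4 i)
  obtain ⟨d, hd0, hd⟩ : ∃ d : ℝ, 0 < d ∧ ∀ i, d ≤ δ i := by
    rcases isEmpty_or_nonempty κ with hι | hι
    · exact ⟨1, one_pos, fun i => hι.elim i⟩
    · obtain ⟨i₀, hi₀⟩ := Finite.exists_min δ
      exact ⟨δ i₀, hδ0 i₀, hi₀⟩
  obtain ⟨ι, _, G, R, h1, h2, hR, hRF, hRS, hcov, h4⟩ := h.prepare hF
  have hP := (isCompact_normals hF U e d).inter hR
  have hM := (isCompact_normals hF U (-e) d).inter hR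
  have hdis : Disjoint ({x | x ∈ F ∧ ∃ u ∈ U, ‖u‖ = 1 ∧ d ≤ (inner ℝ u e : ℝ) ∧ Mx F u x} ∩ R)
      ({x | x ∈ F ∧ ∃ u ∈ U, ‖u‖ = 1 ∧ d ≤ (inner ℝ u (-e) : ℝ) ∧ Mx F u x} ∩ R) := by
    rw [Set.disjoint_left]
    rintro x ⟨⟨hx, u, hu, -, hu2, hu3⟩, hxR⟩ ⟨⟨-, v, hv, -, hv2, hv3⟩, -⟩
    rw [inner_neg_right] at hv2
    exact Set.disjoint_left.mp hRS hxR (hS x hx u hu v hv hu3 hv3 (by linarith) (by linarith))
  obtain ⟨OP, OM, hOP, hOM, hPO, hMO, hO⟩ := normal_separation hP.isClosed hM.isClosed hdis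
  refine ⟨κ × Bool ⊕ ι, inferInstance, fun a => Sum.elim (fun a : κ × Bool => (H a.1 ∩ R) ∩
    (if a.2 then OMᶜ else OPᶜ)) G a, ?_, ?_, ?_, ?_⟩
  · rw [Fintype.card_sum, Fintype.card_prod, h1, m1]
    simp
  · rintro (⟨j, b⟩ | i)
    · cases b
      · exact ((m2 j).inter hR).inter_right hOP.isClosed_compl
      · exact ((m2 j).inter hR).inter_right hOM.isClosed_compl
    · exact h2 i
  · ext x
    constructor
    · intro hx
      have hx' := hx
      rw [hcov] at hx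
      rcases hx with hx | hx
      · obtain ⟨i, hi⟩ := mem_iUnion.mp hx
        exact mem_iUnion.mpr ⟨Sum.inr i, hi⟩
      · rw [m3] at hx'
        obtain ⟨j, hj⟩ := mem_iUnion.mp hx'
        by_cases hxO : x ∈ OM
        · refine mem_iUnion.mpr ⟨Sum.inl (j, false), ⟨hj, hx⟩, ?_⟩
          simp only [Bool.false_eq_true, if_false]
          exact fun h => Set.disjoint_left.mp hO h hxO
        · exact mem_iUnion.mpr ⟨Sum.inl (j, true), ⟨hj, hx⟩, by simpa using hxO⟩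
    · intro hx
      obtain ⟨a, ha⟩ := mem_iUnion.mp hx
      rcases a with a | i
      · exact hRF ha.1.2
      · rw [hcov]
        exact Or.inl (mem_iUnion.mpr ⟨i, ha⟩)
  · rintro (⟨j, b⟩ | i) x hx y hy u hu hu0 hant
    · obtain ⟨⟨hxH, hxR⟩, hxO⟩ := hx
      obtain ⟨⟨hyH, hyR⟩, hyO⟩ := hy
      obtain ⟨v, hv, hv1, hvant⟩ := hant.unit hu hu0
      have hnv1 : ‖-v‖ = 1 := by rw [norm_neg, hv1]
      have hmar := (hd j).trans (hδ j x hxH y hyH v hv hv1 hvant)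
      rcases le_abs.mp hmar with h5 | h5
      · have hxP := hPO ⟨⟨hRF hxR, v, hv, hv1, h5, hvant.1⟩, hxR⟩
        have hyM := hMO ⟨⟨hRF hyR, -v, U.neg_mem hv, hnv1, by
          rw [inner_neg_neg]
          exact h5, hvant.2⟩, hyR⟩
        cases b
        · exact hxO hxP
        · exact hyO hyM
      · have hxM := hMO ⟨⟨hRF hxR, v, hv, hv1, by
          rw [inner_neg_right]
          exact h5, hvant.1⟩, hxR⟩
        have hyP := hPO ⟨⟨hRF hyR, -v, U.neg_mem hv, hnv1, by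
          rw [inner_neg_left]
          exact h5, hvant.2⟩, hyR⟩
        cases b
        · exact hyO hyP
        · exact hxO hxM
    · exact h4 i x hx y hy u hu hu0 hant

end Pool.Agent.H11.SWS
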